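import Pool.Agent.SR3.F.Defs

/-!
# SR3 F Hat: the superharmonic potential

`Δ (r + A log r) = (1 + A / r) Δ r - A gg r r / r²`, `gg (rh) (rh) = (1 + A / r)² gg r r`; `A = 8 B³ / c`, `κ' = max κ (A / c)`.
-/

set_option autoImplicit false

open Topology Filter Metric Laplacian InnerProductSpace

noncomputable section

namespace Pool.Agent.SR3.F

open Pool.Agent.H30M (gg gg_comp gg_comm lap_comp)

theorem hasDerivAt_phi (A : ℝ) {t : ℝ} (ht : 0 < t) : HasDerivAt (fun t : ℝ => t + A * Real.log t) (1 + A / t) t := by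
  have h1 := (hasDerivAt_id t).add ((Real.hasDerivAt_log ht.ne').const_mul A)
  rwa [← div_eq_mul_inv] at h1

theorem deriv_phi (A : ℝ) {t : ℝ} (ht : 0 < t) : deriv (fun t : ℝ => t + A * Real.log t) t = 1 + A / t := (hasDerivAt_phi A ht).deriv

theorem deriv2_phi (A : ℝ) {t : ℝ} (ht : 0 < t) : deriv (deriv fun t : ℝ => t + A * Real.log t) t = -(A / t ^ 2) := by
  have h1 : deriv (fun t : ℝ => t + A * Real.log t) =ᶠ[𝓝 t] fun t => 1 + A * t⁻¹ := by
    filter_upwards [eventually_gt_nhds ht] with s hs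
    rw [deriv_phi A hs, div_eq_mul_inv]
  rw [h1.deriv_eq]
  have h2 : HasDerivAt (fun t : ℝ => 1 + A * t⁻¹) (A * -(t ^ 2)⁻¹) t := ((hasDerivAt_inv ht.ne').const_mul A).const_add 1
  rw [h2.deriv]
  ring

theorem contDiffAt_phi (A : ℝ) {t : ℝ} (ht : 0 < t) : ContDiffAt ℝ 2 (fun t : ℝ => t + A * Real.log t) t :=
  contDiffAt_id.add (contDiffAt_const.mul (Real.contDiffAt_log.2 ht.ne'))

/-- the Laplacian of `rh` -/
theorem lap_rh (A : ℝ) {r : ℂ → ℝ} {z : ℂ} (hr : ContDiffAt ℝ 2 r z) (h0 : 0 < r z) :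
    Δ (rh A r) z = (1 + A / r z) * Δ r z - A / r z ^ 2 * gg r r z := by
  have h1 := lap_comp (contDiffAt_phi A h0) hr
  rw [deriv_phi A h0, deriv2_phi A h0] at h1
  have h2 : Δ (rh A r) z = _ := h1
  rw [h2]
  ring

/-- the gradient of `rh` -/
theorem gg_rh (A : ℝ) {r : ℂ → ℝ} {z : ℂ} (hr : ContDiffAt ℝ 2 r z) (h0 : 0 < r z) :
    gg (rh A r) (rh A r) z = (1 + A / r z) ^ 2 * gg r r z := by
  have hd : DifferentiableAt ℝ r z := hr.differentiableAt (by norm_num)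
  have hφ : DifferentiableAt ℝ (fun t : ℝ => t + A * Real.log t) (r z) := (hasDerivAt_phi A h0).differentiableAt
  have h1 : gg (rh A r) (rh A r) z = deriv (fun t : ℝ => t + A * Real.log t) (r z) * gg r (rh A r) z := gg_comp hφ hd
  have h2 : gg (rh A r) r z = deriv (fun t : ℝ => t + A * Real.log t) (r z) * gg r r z := gg_comp hφ hd
  rw [h1, gg_comm r (rh A r) z, h2, deriv_phi A h0]
  ring

theorem contDiff_rh (A : ℝ) {r : ℂ → ℝ} (hr : ContDiff ℝ 2 r) (h0 : ∀ z, 1 ≤ r z) : ContDiff ℝ 2 (rh A r) :=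
  hr.add (contDiff_const.mul (hr.log fun z => (zero_lt_one.trans_le (h0 z)).ne'))

theorem le_rh {A : ℝ} (hA : 0 ≤ A) {r : ℂ → ℝ} {z : ℂ} (h0 : 1 ≤ r z) : r z ≤ rh A r z := by
  have := mul_nonneg hA (Real.log_nonneg h0)
  unfold rh
  linarith

theorem rh_le {A : ℝ} (hA : 0 ≤ A) {r : ℂ → ℝ} {z : ℂ} (h0 : 1 ≤ r z) : rh A r z ≤ (1 + A) * r z := by
  have h1 := Real.log_le_sub_one_of_pos (zero_lt_one.trans_le h0)
  have h2 : A * Real.log (r z) ≤ A * r z := mul_le_mul_of_nonneg_left (by linarith) hA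
  unfold rh
  linarith

/-- MODULE Hat.  `Δ (r + A log r) = (1 + A / r) Δ r - A gg r r / r²`, `gg (rh) (rh) = (1 + A / r)² gg r r`; `A = 8 B³ / c`, `κ'` with `A ≤ c κ'`. -/
theorem exists_hat {κ c B : ℝ} (hκ : 1 ≤ κ) (hc : 0 < c) (hB : 1 ≤ B) :
    ∃ A κ' B' : ℝ, 0 ≤ A ∧ κ ≤ κ' ∧ 1 ≤ B' ∧ ∀ r d : ℂ → ℝ, Pot r d κ c B → Hat (rh A r) d κ' c B' := by
  have hB0 : 0 < B := by linarith
  have hA : 0 ≤ 8 * B ^ 3 / c := by positivity
  refine ⟨8 * B ^ 3 / c, max κ (8 * B ^ 3 / c / c), (1 + 8 * B ^ 3 / c) * B, hA, le_max_left _ _, ?_, fun r d hP => ?_⟩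
  · calc (1 : ℝ) = 1 * 1 := (mul_one 1).symm
      _ ≤ (1 + 8 * B ^ 3 / c) * B := mul_le_mul (by linarith) hB zero_le_one (by linarith)
  set A := 8 * B ^ 3 / c with hA_def
  have hr0 : ∀ z, 0 < r z := fun z => zero_lt_one.trans_le (hP.one_le z)
  refine ⟨contDiff_rh A hP.smooth hP.one_le, fun z => (hP.one_le z).trans (le_rh hA (hP.one_le z)), hP.d0, hP.lip, fun z => ?_, fun z hz => ?_, fun z hz => ?_⟩
  · calc rh A r z ≤ (1 + A) * r z := rh_le hA (hP.one_le z)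
      _ ≤ (1 + A) * (B * (1 + d z)) := mul_le_mul_of_nonneg_left (hP.le z) (by linarith)
      _ = (1 + A) * B * (1 + d z) := by ring
  · have hz1 : κ ≤ d z := (le_max_left _ _).trans hz
    have hz2 : A / c ≤ d z := (le_max_right _ _).trans hz
    have hd1 : 1 ≤ d z := hκ.trans hz1
    have hd0 : 0 < d z := by linarith
    rw [lap_rh A hP.smooth.contDiffAt (hr0 z)]
    have h1 : A / r z ≤ 1 := by
      rw [div_le_one (hr0 z)]
      have h2 := hP.lower z hz1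
      have h3 : A ≤ c * d z := by
        rw [div_le_iff₀ hc] at hz2
        linarith
      linarith
    have h2 : (1 + A / r z) * Δ r z ≤ 2 * (B / d z ^ 2) := by
      have h3 : (1 + A / r z) * Δ r z ≤ (1 + A / r z) * (B / d z ^ 2) :=
        mul_le_mul_of_nonneg_left (hP.lap z hz1) (by
          have : 0 ≤ A / r z := div_nonneg hA (hr0 z).le
          linarith)
      have h4 : (1 + A / r z) * (B / d z ^ 2) ≤ 2 * (B / d z ^ 2) := mul_le_mul_of_nonneg_right (by linarith) (by positivity)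
      linarith
    have h5 : 2 * (B / d z ^ 2) ≤ A / r z ^ 2 * gg r r z := by
      have h6 : r z ≤ 2 * B * d z := (hP.le z).trans (by nlinarith)
      have h7 : r z ^ 2 ≤ (2 * B * d z) ^ 2 := pow_le_pow_left₀ (hr0 z).le h6 2
      have h8 : A / (2 * B * d z) ^ 2 ≤ A / r z ^ 2 := div_le_div_of_nonneg_left hA (pow_pos (hr0 z) 2) h7
      have h9 : A / (2 * B * d z) ^ 2 * c ≤ A / r z ^ 2 * gg r r z :=
        mul_le_mul h8 (hP.grad z hz1) hc.le (by positivity)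
      refine le_trans (le_of_eq ?_) h9
      rw [hA_def]
      field_simp
      ring
    linarith
  · have hz1 : κ ≤ d z := (le_max_left _ _).trans hz
    rw [gg_rh A hP.smooth.contDiffAt (hr0 z)]
    have h1 : 0 ≤ A / r z := div_nonneg hA (hr0 z).le
    have h2 : (1 : ℝ) ≤ (1 + A / r z) ^ 2 := by nlinarith
    have h3 := hP.grad z hz1
    calc c ≤ 1 * gg r r z := by linarith
      _ ≤ (1 + A / r z) ^ 2 * gg r r z := mul_le_mul_of_nonneg_right h2 (by linarith)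

end Pool.Agent.SR3.F
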