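import Pool.Agent.SR3.F.Defs
import Pool.Agent.E2.AhlB
import Pool.Agent.H36.TB.Cur

/-!
# SR3 F Psi: the sections along a curve and a field of tangent vectors
-/

set_option autoImplicit false

open Topology Filter Metric Laplacian InnerProductSpace

noncomputable section

namespace Pool.Agent.SR3.F

open Pool.Agent.H36.BP (EN fs wd)
open Pool.Agent.H14.PP (Tan)
open Pool.Agent.H30M (gg)
open Pool.Agent.SR3.G (Mem Str Facts TubeBd FirstP RigidF IsChain)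
open Geo (Gd)

variable {N : ℕ} {G : Geo N} {T : Set (EN N)} {rho : EN N → ℝ} {M : ℕ} {c₀ C δ γ A' B : ℝ} {g : (ℂ → EN N) → ℂ → ℝ}

/-- MODULE Psi.  `φ (z, t) = c (z) σ (τ (F z) + t Dτ (F z) (V z))` in `IsForm.analytic`, at `(z, 0)`; `add_smul`. -/
theorem psi_diff (hG : G.Ok) (a : G.A) {F V : ℂ → EN N} (hF : Differentiable ℂ F) (hK : ∀ z, F z ∈ G.K) (hV : Differentiable ℂ V)
    (hT : ∀ z, Tan G.X (F z) (V z)) : Differentiable ℂ fun z => G.Ω a (F z) (deriv F z) (V z) := by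
  intro z₀
  have hKX : ∀ x, x ∈ G.K ↔ x ∈ G.X ∧ G.p x ≠ 0 := fun x => by
    rw [hG.aff.mem]
    exact ⟨fun h => ⟨h.1, h.2 ()⟩, fun h => ⟨h.1, fun _ => h.2⟩⟩
  obtain ⟨σ, τ, hσ, hσ0⟩ := hG.surf.chart (F z₀) ((hKX _).1 (hK z₀)).1
  have hFan : AnalyticAt ℂ F z₀ := hF.analyticAt z₀
  have hVan : AnalyticAt ℂ V z₀ := hV.analyticAt z₀
  obtain ⟨c, hc, hc1, hτF, hτ0, hFc⟩ := Pool.Agent.E2.curve_chart hσ hFan (Eventually.of_forall fun z => ((hKX _).1 (hK z)).1) hσ0.symm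
  -- the coordinates of the field
  set u : ℂ → ℂ × ℂ := fun z => fderiv ℂ τ (F z) (V z) with hu
  have hτ' : AnalyticAt ℂ (fderiv ℂ τ) (F z₀) := by
    rw [← hσ0]
    exact hσ.τ_an.fderiv
  have huan : AnalyticAt ℂ u z₀ := by
    have hb : AnalyticAt ℂ (fun x : (EN N →L[ℂ] ℂ × ℂ) × EN N => (ContinuousLinearMap.id ℂ (EN N →L[ℂ] ℂ × ℂ)) x.1 x.2)
        (fderiv ℂ τ (F z₀), V z₀) := ContinuousLinearMap.analyticAt_bilinear _ _
    exact AnalyticAt.fun_comp (f := fun z => (fderiv ℂ τ (F z), V z)) hb ((hτ'.comp hFan).prod hVan)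
  set Φ : ℂ × ℂ → EN N := fun y => c y.1 • σ (τ (F y.1) + y.2 • u y.1) with hΦ
  have hy1 : AnalyticAt ℂ (fun y : ℂ × ℂ => y.1) (z₀, 0) := analyticAt_fst
  have hy2 : AnalyticAt ℂ (fun y : ℂ × ℂ => y.2) (z₀, 0) := analyticAt_snd
  have hin : AnalyticAt ℂ (fun y : ℂ × ℂ => τ (F y.1) + y.2 • u y.1) (z₀, 0) :=
    (AnalyticAt.fun_comp (g := fun z => τ (F z)) (f := fun y : ℂ × ℂ => y.1) hτF hy1).add
      (hy2.smul (AnalyticAt.fun_comp (g := u) (f := fun y : ℂ × ℂ => y.1) huan hy1))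
  have hin0 : τ (F ((z₀, (0 : ℂ)) : ℂ × ℂ).1) + ((z₀, (0 : ℂ)) : ℂ × ℂ).2 • u ((z₀, (0 : ℂ)) : ℂ × ℂ).1 = 0 := by
    simp only [zero_smul, add_zero]
    exact hτ0
  have hcan : AnalyticAt ℂ (fun y : ℂ × ℂ => c y.1) (z₀, 0) := AnalyticAt.fun_comp (g := c) (f := fun y : ℂ × ℂ => y.1) hc hy1
  have hΦan : AnalyticAt ℂ Φ (z₀, 0) :=
    hcan.smul (AnalyticAt.fun_comp (g := σ) (f := fun y : ℂ × ℂ => τ (F y.1) + y.2 • u y.1) (by rw [hin0]; exact hσ.σ_an) hin)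
  have hΦ0 : ∀ᶠ z in 𝓝 z₀, Φ (z, 0) = F z := by
    filter_upwards [hFc] with z hz
    rw [hΦ]
    simp only [zero_smul, add_zero]
    exact hz.symm
  have hΦK : ∀ᶠ y in 𝓝 ((z₀, 0) : ℂ × ℂ), Φ y ∈ G.K := by
    have h1 : Tendsto (fun y : ℂ × ℂ => τ (F y.1) + y.2 • u y.1) (𝓝 (z₀, 0)) (𝓝 0) := by
      have := hin.continuousAt.tendsto
      rwa [hin0] at this
    have h2 : ∀ᶠ y in 𝓝 ((z₀, 0) : ℂ × ℂ), c y.1 ≠ 0 := by
      refine hcan.continuousAt.eventually_ne ?_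
      show c z₀ ≠ 0
      rw [hc1]
      exact one_ne_zero
    have h3 : ∀ᶠ y in 𝓝 ((z₀, 0) : ℂ × ℂ), G.p (Φ y) ≠ 0 := by
      have h4 : ContinuousAt (fun y => G.p (Φ y)) (z₀, 0) := ContinuousAt.comp (g := G.p) (hG.aff.an () _).continuousAt hΦan.continuousAt
      refine h4.eventually_ne ?_
      show G.p (Φ (z₀, 0)) ≠ 0
      rw [hΦ0.self_of_nhds]
      exact ((hKX _).1 (hK z₀)).2
    filter_upwards [h1.eventually hσ.σ_mem, h2, h3] with y e1 e2 e3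
    exact (hKX _).2 ⟨hG.surf.smul _ e1 _ e2, e3⟩
  have key := (hG.form a).analytic Φ (z₀, 0) hΦan hΦK
  have hsec : AnalyticAt ℂ (fun z : ℂ => ((z, 0) : ℂ × ℂ)) z₀ := analyticAt_id.prod analyticAt_const
  have hsecT : Tendsto (fun z : ℂ => ((z, 0) : ℂ × ℂ)) (𝓝 z₀) (𝓝 (z₀, 0)) := hsec.continuousAt.tendsto
  have key2 : AnalyticAt ℂ (fun z : ℂ => G.Ω a (Φ (z, 0)) (fderiv ℂ Φ (z, 0) (1, 0)) (fderiv ℂ Φ (z, 0) (0, 1))) z₀ :=
    AnalyticAt.fun_comp (g := fun y => G.Ω a (Φ y) (fderiv ℂ Φ y (1, 0)) (fderiv ℂ Φ y (0, 1))) (f := fun z : ℂ => ((z, 0) : ℂ × ℂ)) key hsec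
  refine (key2.congr ?_).differentiableAt
  have hFt : Tendsto F (𝓝 z₀) (𝓝 (σ 0)) := by
    rw [hσ0]
    exact hFan.continuousAt.tendsto
  have hτFt : Tendsto (fun z => τ (F z)) (𝓝 z₀) (𝓝 0) := by
    have := hτF.continuousAt.tendsto
    rwa [hτ0] at this
  filter_upwards [hsecT.eventually hΦan.eventually_analyticAt, hΦ0.eventually_nhds, hFt.eventually (Pool.Agent.H36.TB.exists_coef hσ), hFc,
    hc.continuousAt.eventually_ne (by rw [hc1]; exact one_ne_zero), hsecT.eventually hΦK.eventually_nhds,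
    hτFt.eventually (hσ.σ_an.continuousAt.eventually_ne hσ.ne), hτFt.eventually hσ.σ_an.eventually_analyticAt,
    hFt.eventually hσ.τ_an.eventually_analyticAt] with z e1 e2 e3 e4 e5 e6 e7 e8 e9
  have f0 : Φ (z, 0) = F z := e2.self_of_nhds
  -- the two derivatives
  have f1 : fderiv ℂ Φ (z, 0) (1, 0) = deriv F z := by
    have h0 : HasDerivAt (fun w : ℂ => ((w, 0) : ℂ × ℂ)) (1, 0) z := (hasDerivAt_id z).prodMk (hasDerivAt_const z (0 : ℂ))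
    have hd : HasFDerivAt Φ (fderiv ℂ Φ (z, 0)) ((fun w : ℂ => ((w, 0) : ℂ × ℂ)) z) := e1.differentiableAt.hasFDerivAt
    have h1 : HasDerivAt (Φ ∘ fun w : ℂ => ((w, 0) : ℂ × ℂ)) (fderiv ℂ Φ (z, 0) (1, 0)) z := HasFDerivAt.comp_hasDerivAt z hd h0
    have h2 : (fun w : ℂ => Φ (w, 0)) =ᶠ[𝓝 z] F := e2
    rw [← h1.deriv]
    exact h2.deriv_eq
  have f2 : HasDerivAt (fun s : ℂ => Φ (z, s)) (fderiv ℂ Φ (z, 0) (0, 1)) 0 := by
    have h0 : HasDerivAt (fun s : ℂ => ((z, s) : ℂ × ℂ)) (0, 1) 0 := (hasDerivAt_const (0 : ℂ) z).prodMk (hasDerivAt_id (0 : ℂ))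
    exact e1.differentiableAt.hasFDerivAt.comp_hasDerivAt (0 : ℂ) h0
  have f3 : fderiv ℂ Φ (z, 0) (0, 1) = c z • fderiv ℂ σ (τ (F z)) (u z) := by
    have h1 : HasDerivAt (fun s : ℂ => τ (F z) + s • u z) (u z) 0 := by
      have h3 : HasDerivAt (fun s : ℂ => s • u z) ((1 : ℂ) • u z) 0 := (hasDerivAt_id (0 : ℂ)).smul_const (u z)
      rw [one_smul] at h3
      exact h3.const_add _
    have h2 : HasFDerivAt σ (fderiv ℂ σ (τ (F z))) (τ (F z) + (0 : ℂ) • u z) := by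
      rw [zero_smul, add_zero]
      exact e8.differentiableAt.hasFDerivAt
    have h3 : HasDerivAt (fun s : ℂ => Φ (z, s)) (c z • fderiv ℂ σ (τ (F z)) (u z)) 0 := (h2.comp_hasDerivAt (0 : ℂ) h1).const_smul (c z)
    exact f2.unique h3
  -- the given vector
  obtain ⟨γ, ⟨hγ, hγX⟩, hγ0, hγ'⟩ := hT z
  obtain ⟨c', b, hc', g1, g2⟩ := e3 γ 0 hγ hγX hγ0
  have g3 : deriv (fun w => τ (γ w)) 0 = u z := by
    have h1 : HasFDerivAt τ (fderiv ℂ τ (F z)) (γ 0) := by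
      rw [hγ0]
      exact e9.differentiableAt.hasFDerivAt
    have h2 := h1.comp_hasDerivAt (0 : ℂ) hγ.differentiableAt.hasDerivAt
    rw [hγ'] at h2
    exact h2.deriv
  rw [hγ0] at g1
  have g4 : c' = c z := by
    have h1 : (c' - c z) • σ (τ (F z)) = 0 := by
      rw [sub_smul, ← g1, ← e4, sub_self]
    exact sub_eq_zero.1 ((smul_eq_zero.1 h1).resolve_right e7)
  have g5 : V z = fderiv ℂ Φ (z, 0) (0, 1) + (b / c z) • F z := by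
    rw [f3, ← hγ', g2, g3, g4]
    congr 1
    conv_rhs => rw [e4]
    rw [smul_smul, div_mul_cancel₀ _ e5]
  -- the tangent vectors
  have hzK : F z ∈ G.K := hK z
  have t1 : deriv F z ∈ Pool.Agent.H17BP.Tan G.K (F z) := by
    refine ⟨fun s => F (z + s), ?_, Eventually.of_forall fun s => hK _, by simp, ?_⟩
    · exact AnalyticAt.fun_comp (g := F) (f := fun s : ℂ => z + s) (hF.analyticAt _) (analyticAt_const.add analyticAt_id)
    · rw [deriv_comp_const_add, add_zero]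
  have t2 : fderiv ℂ Φ (z, 0) (0, 1) ∈ Pool.Agent.H17BP.Tan G.K (F z) := by
    have h1 : AnalyticAt ℂ (fun s : ℂ => ((z, s) : ℂ × ℂ)) 0 := analyticAt_const.prod analyticAt_id
    refine ⟨fun s => Φ (z, s), AnalyticAt.fun_comp (g := Φ) (f := fun s : ℂ => ((z, s) : ℂ × ℂ)) e1 h1, ?_, f0, f2.deriv⟩
    exact h1.continuousAt.tendsto.eventually e6
  rw [f0, f1, g5]
  have h1 := (hG.form a).add_smul (F z) hzK _ t1 _ t2 0 (b / c z)
  rw [zero_smul, add_zero] at h1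
  exact h1.symm

/-- MODULE Psi.  From `Ω_le`; `fs x w ≤ ‖w‖ / ‖x‖`. -/
theorem psi_le (hG : G.Ok) : ∃ B₁ : ℝ, 0 ≤ B₁ ∧ ∀ a, ∀ x ∈ G.K, G.p x = 1 → ∀ v w, Tan G.X x v → Tan G.X x w → ∀ e : ℝ, 0 ≤ e → ‖w‖ ≤ e * ‖x‖ →
    (∀ i, ‖fderiv ℂ (G.E i) x w‖ ≤ e * ‖G.E i x‖) → ‖G.Ω a x v w‖ ≤ B₁ * G.L x v ^ G.mΩ * e ^ G.mΩ / ‖x‖ ^ G.jΩ := by
  obtain ⟨C, hC, hΩ⟩ := hG.Ω_le
  set D : ℝ := 1 + ∑ i, (1 + (G.c i : ℝ)) with hD
  have hD0 : 0 ≤ D := by positivity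
  refine ⟨C * D ^ G.mΩ, by positivity, fun a x hx hpx v w hv hw e he hwe hE => ?_⟩
  have hfs0 : ∀ y : EN N, 0 ≤ fs x y := fun y => div_nonneg (Real.sqrt_nonneg _) (sq_nonneg _)
  have hLv : 0 ≤ G.L x v := add_nonneg (hfs0 v) (Finset.sum_nonneg fun i _ => norm_nonneg _)
  have hLw0 : 0 ≤ G.L x w := add_nonneg (hfs0 w) (Finset.sum_nonneg fun i _ => norm_nonneg _)
  have hfs : fs x w ≤ e := by
    unfold fs wd
    refine div_le_of_le_mul₀ (sq_nonneg _) he ?_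
    have h1 : Real.sqrt (‖x‖ ^ 2 * ‖w‖ ^ 2 - ‖inner ℂ x w‖ ^ 2) ≤ Real.sqrt ((‖x‖ * ‖w‖) ^ 2) :=
      Real.sqrt_le_sqrt (by nlinarith [sq_nonneg ‖(inner ℂ x w : ℂ)‖])
    rw [Real.sqrt_sq (by positivity)] at h1
    refine h1.trans ?_
    calc ‖x‖ * ‖w‖ ≤ ‖x‖ * (e * ‖x‖) := mul_le_mul_of_nonneg_left hwe (norm_nonneg _)
      _ = e * ‖x‖ ^ 2 := by ring
  have hdiv : ∀ {V : Type} [NormedAddCommGroup V] [InnerProductSpace ℂ V] (y z : V), ‖z‖ ≤ e * ‖y‖ → ‖(inner ℂ y z : ℂ) / (‖y‖ : ℂ) ^ 2‖ ≤ e := by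
    intro V _ _ y z hz
    rw [norm_div, norm_pow, Complex.norm_real, norm_norm]
    refine div_le_of_le_mul₀ (sq_nonneg _) he ?_
    calc ‖(inner ℂ y z : ℂ)‖ ≤ ‖y‖ * ‖z‖ := norm_inner_le_norm y z
      _ ≤ ‖y‖ * (e * ‖y‖) := mul_le_mul_of_nonneg_left hz (norm_nonneg _)
      _ = e * ‖y‖ ^ 2 := by ring
  have hell : ∀ i, ‖G.ell i x w‖ ≤ (1 + (G.c i : ℝ)) * e := fun i => by
    unfold Geo.ell
    refine (norm_sub_le _ _).trans ?_
    rw [norm_mul, Complex.norm_natCast, add_mul, one_mul]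
    exact add_le_add (hdiv _ _ (hE i)) (mul_le_mul_of_nonneg_left (hdiv _ _ hwe) (Nat.cast_nonneg _))
  have hLw : G.L x w ≤ D * e := by
    unfold Geo.L
    rw [hD, add_mul, one_mul, Finset.sum_mul]
    exact add_le_add hfs (Finset.sum_le_sum fun i _ => hell i)
  refine (hΩ a x hx hpx v w hv hw).trans ?_
  refine div_le_div_of_nonneg_right ?_ (by positivity)
  calc C * G.L x v ^ G.mΩ * G.L x w ^ G.mΩ ≤ C * G.L x v ^ G.mΩ * (D * e) ^ G.mΩ :=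
        mul_le_mul_of_nonneg_left (pow_le_pow_left₀ hLw0 hLw _) (by positivity)
    _ = C * D ^ G.mΩ * G.L x v ^ G.mΩ * e ^ G.mΩ := by
      rw [mul_pow]
      ring

end Pool.Agent.SR3.F
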