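import Pool.Agent.SR3.F.Defs
import Pool.Agent.SR3.G.MemG

/-!
# SR3 F CmpInf: two members with the same rates have the same potentials up to `O (|z| ^ γ)`
-/

set_option autoImplicit false

open Topology Filter Metric

noncomputable section

namespace Pool.Agent.SR3.F

open Pool.Agent.H36.BP (EN)
open Pool.Agent.SR3.G (Mem Str Facts exists_good_near)
open Geo (Gd)

variable {N : ℕ} {G : Geo N} {T : Set (EN N)} {rho : EN N → ℝ} {δ γ A' B : ℝ}

/-- the boundary functions of a member are close to the linear ones -/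
theorem mem_lam (hf : Facts G T rho δ γ A' B) (β β' : G.ι → ℝ) (M₁ : ℝ) :
    ∃ Q : ℝ, 0 ≤ Q ∧ ∀ (q : G.J → ℂ) (F : ℂ → EN N), Mem G T rho δ γ A' B β β' q F → ‖F 0‖ ≤ M₁ → ∀ z i,
      |G.lam i (F z) - lin Complex.I 0 (β i) (β' i) z| ≤ Q * pw γ ‖z‖ := by
  obtain ⟨R, hR0, hR⟩ := exists_good_near hf M₁
  have hγ := hf.str.γ_pos
  have hγ1 := hf.str.γ_lt
  have hB := hf.str.B_pos
  set S : ℝ := ∑ i, (|β i| + |β' i|) with hS
  have hS0 : 0 ≤ S := by positivity
  refine ⟨B * (1 + R) + S * R, by positivity, fun q F hm h0 z i => ?_⟩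
  obtain ⟨a, ha, haR⟩ := hR q F hm.cl h0
  have hfit := Pool.Agent.SR3.G.fits_all hf.str hm ha
  set p : ℝ := pw γ ‖z‖ with hp
  have hp1 : 1 ≤ p := by
    rw [hp]
    exact Real.one_le_rpow (by linarith [norm_nonneg z]) hγ.le
  have hpa : pw γ ‖z - a‖ ≤ (1 + R) * p := by
    have e1 : ‖z - a‖ ≤ ‖z‖ + R := (norm_sub_le _ _).trans (by linarith)
    have e2 : (2 + ‖z - a‖) ≤ (1 + R) * (2 + ‖z‖) := by nlinarith [norm_nonneg z]
    calc (2 + ‖z - a‖) ^ γ ≤ ((1 + R) * (2 + ‖z‖)) ^ γ := Real.rpow_le_rpow (by positivity) e2 hγ.le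
      _ = (1 + R) ^ γ * (2 + ‖z‖) ^ γ := Real.mul_rpow (by linarith) (by positivity)
      _ ≤ (1 + R) * (2 + ‖z‖) ^ γ := by
          apply mul_le_mul_of_nonneg_right _ (by positivity)
          calc (1 + R) ^ γ ≤ (1 + R) ^ (1 : ℝ) := Real.rpow_le_rpow_of_exponent_le (by linarith) hγ1.le
            _ = 1 + R := Real.rpow_one _
  have h1 : |G.lam i (F z) - lin Complex.I a (β i) (β' i) z| ≤ B * ((1 + R) * p) :=
    (hfit.2.2 z (Set.mem_univ z) i).trans (mul_le_mul_of_nonneg_left hpa hB.le)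
  have h2 : |lin Complex.I a (β i) (β' i) z - lin Complex.I 0 (β i) (β' i) z| ≤ (|β i| + |β' i|) * R := by
    have e1 : yy Complex.I a z = z.im - a.im := by
      unfold yy
      simp
    have e2 : yy Complex.I 0 z = z.im := by
      unfold yy
      simp
    unfold lin
    rw [e1, e2]
    have e3 : |max (z.im - a.im) 0 - max z.im 0| ≤ R := by
      refine (abs_max_sub_max_le_abs _ _ _).trans ?_
      have : z.im - a.im - z.im = -a.im := by ring
      rw [this, abs_neg]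
      exact (Complex.abs_im_le_norm a).trans haR
    have e4 : |max (-(z.im - a.im)) 0 - max (-z.im) 0| ≤ R := by
      refine (abs_max_sub_max_le_abs _ _ _).trans ?_
      have : -(z.im - a.im) - -z.im = a.im := by ring
      rw [this]
      exact (Complex.abs_im_le_norm a).trans haR
    have e5 : β i * max (z.im - a.im) 0 + β' i * max (-(z.im - a.im)) 0 - (β i * max z.im 0 + β' i * max (-z.im) 0) =
        β i * (max (z.im - a.im) 0 - max z.im 0) + β' i * (max (-(z.im - a.im)) 0 - max (-z.im) 0) := by ring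
    rw [e5]
    refine (abs_add_le _ _).trans ?_
    rw [abs_mul, abs_mul, add_mul]
    exact add_le_add (mul_le_mul_of_nonneg_left e3 (abs_nonneg _)) (mul_le_mul_of_nonneg_left e4 (abs_nonneg _))
  have h3 : (|β i| + |β' i|) ≤ S := Finset.single_le_sum (f := fun i => |β i| + |β' i|) (fun i _ => by positivity) (Finset.mem_univ i)
  have h4 : (|β i| + |β' i|) * R ≤ S * R * p := by
    calc (|β i| + |β' i|) * R ≤ S * R := mul_le_mul_of_nonneg_right h3 hR0
      _ ≤ S * R * p := le_mul_of_one_le_right (by positivity) hp1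
  have h5 : G.lam i (F z) - lin Complex.I 0 (β i) (β' i) z =
      (G.lam i (F z) - lin Complex.I a (β i) (β' i) z) + (lin Complex.I a (β i) (β' i) z - lin Complex.I 0 (β i) (β' i) z) := by ring
  rw [h5]
  refine (abs_add_le _ _).trans ?_
  have : (B * (1 + R) + S * R) * p = B * ((1 + R) * p) + S * R * p := by ring
  rw [this]
  linarith

theorem cmp_inf (hG : G.Ok) (hf : Facts G T rho δ γ A' B) (β β' : G.ι → ℝ) (M₁ : ℝ) :
    ∃ Q : ℝ, 0 ≤ Q ∧ ∀ (q : G.J → ℂ) (F H : ℂ → EN N), Mem G T rho δ γ A' B β β' q F → Mem G T rho δ γ A' B β β' q H →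
      ‖F 0‖ ≤ M₁ → ‖H 0‖ ≤ M₁ → ∀ z, Real.log ‖H z‖ ≤ Real.log ‖F z‖ + Q * pw γ ‖z‖ ∧
        ∀ i, Real.log ‖G.E i (H z)‖ ≤ Real.log ‖G.E i (F z)‖ + Q * pw γ ‖z‖ := by
  obtain ⟨Q₁, hQ₁, hlam⟩ := mem_lam hf β β' M₁
  obtain ⟨Cc, hCc⟩ := hG.cmp
  have hγ := hf.str.γ_pos
  have hh : (1 : ℝ) ≤ G.h := by
    have := hG.aff.pos ()
    exact_mod_cast this
  set b : ℝ := ∑ i, (G.b i : ℝ) with hb
  have hb0 : 0 ≤ b := by positivity
  set Q₂ : ℝ := b * (2 * Q₁) + 2 * |Cc| with hQ₂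
  have hQ₂0 : 0 ≤ Q₂ := by positivity
  set s : ℝ := ∑ i, (G.c i : ℝ) with hs
  have hs0 : 0 ≤ s := by positivity
  refine ⟨Q₂ + s * Q₂ + 2 * Q₁, by positivity, fun q F H hF hH hF0 hH0 z => ?_⟩
  set p : ℝ := pw γ ‖z‖ with hp
  have hp1 : 1 ≤ p := by
    rw [hp]
    exact Real.one_le_rpow (by linarith [norm_nonneg z]) hγ.le
  have hp0 : 0 ≤ p := by linarith
  have hd : ∀ i, |G.lam i (H z) - G.lam i (F z)| ≤ 2 * Q₁ * p := by
    intro i
    have e1 := abs_le.1 (hlam q F hF hF0 z i)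
    have e2 := abs_le.1 (hlam q H hH hH0 z i)
    rw [abs_le]
    constructor <;> linarith [e1.1, e1.2, e2.1, e2.2]
  have c1 := abs_le.1 (hCc (F z) (hF.cl.ent.mem z))
  have c2 := abs_le.1 (hCc (H z) (hH.cl.ent.mem z))
  rw [hF.cl.nm z, norm_one, Real.log_one, sub_zero] at c1
  rw [hH.cl.nm z, norm_one, Real.log_one, sub_zero] at c2
  have hsum : |∑ i, (G.b i : ℝ) * G.lam i (H z) - ∑ i, (G.b i : ℝ) * G.lam i (F z)| ≤ b * (2 * Q₁ * p) := by
    rw [← Finset.sum_sub_distrib, hb, Finset.sum_mul]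
    refine (Finset.abs_sum_le_sum_abs _ _).trans (Finset.sum_le_sum fun i _ => ?_)
    rw [← mul_sub, abs_mul, abs_of_nonneg (Nat.cast_nonneg _)]
    exact mul_le_mul_of_nonneg_left (hd i) (Nat.cast_nonneg _)
  have hsum' := abs_le.1 hsum
  have hCp : |Cc| ≤ |Cc| * p := le_mul_of_one_le_right (abs_nonneg _) hp1
  have hCabs := le_abs_self Cc
  have hlog : |Real.log ‖H z‖ - Real.log ‖F z‖| ≤ Q₂ * p := by
    have e1 : |(G.h : ℝ) * (Real.log ‖H z‖ - Real.log ‖F z‖)| ≤ Q₂ * p := by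
      have e2 : Q₂ * p = b * (2 * Q₁ * p) + 2 * (|Cc| * p) := by rw [hQ₂]; ring
      rw [e2, abs_le]
      constructor <;> nlinarith [c1.1, c1.2, c2.1, c2.2, hsum'.1, hsum'.2]
    rw [abs_mul, abs_of_nonneg (by linarith)] at e1
    refine le_trans ?_ e1
    exact le_mul_of_one_le_left (abs_nonneg _) hh
  have hlog' := abs_le.1 hlog
  have hsQ : 0 ≤ s * Q₂ * p := by positivity
  have hQp : 0 ≤ Q₁ * p := by positivity
  have hQ2p : 0 ≤ Q₂ * p := by positivity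
  constructor
  · have : (Q₂ + s * Q₂ + 2 * Q₁) * p = Q₂ * p + s * Q₂ * p + 2 * (Q₁ * p) := by ring
    linarith [hlog'.2]
  · intro i
    have e1 : Real.log ‖G.E i (H z)‖ = G.c i * Real.log ‖H z‖ - G.lam i (H z) := by unfold Geo.lam; ring
    have e2 : Real.log ‖G.E i (F z)‖ = G.c i * Real.log ‖F z‖ - G.lam i (F z) := by unfold Geo.lam; ring
    have e3 : (G.c i : ℝ) ≤ s := Finset.single_le_sum (f := fun i => (G.c i : ℝ)) (fun i _ => by positivity) (Finset.mem_univ i)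
    have e4 : (G.c i : ℝ) * (Real.log ‖H z‖ - Real.log ‖F z‖) ≤ s * (Q₂ * p) := by
      calc (G.c i : ℝ) * (Real.log ‖H z‖ - Real.log ‖F z‖) ≤ (G.c i : ℝ) * (Q₂ * p) := mul_le_mul_of_nonneg_left hlog'.2 (Nat.cast_nonneg _)
        _ ≤ s * (Q₂ * p) := mul_le_mul_of_nonneg_right e3 hQ2p
    have e5 := (abs_le.1 (hd i)).1
    rw [e1, e2]
    have : (Q₂ + s * Q₂ + 2 * Q₁) * p = Q₂ * p + s * (Q₂ * p) + 2 * (Q₁ * p) := by ring
    rw [this]
    linarith

end Pool.Agent.SR3.F
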