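import Pool.Agent.SR3.F.Defs
import Pool.Agent.SR3.ALam

/-!
# SR3 F LipE: the equations of the boundary are Lipschitz
-/

set_option autoImplicit false

open Topology Filter Metric

noncomputable section

namespace Pool.Agent.SR3.F

open Pool.Agent.H36.BP (EN)

variable {N : ℕ} {G : Geo N}

/-- MODULE LipE.  A homogeneous analytic map. -/
theorem lipE (hG : G.Ok) : ∃ B₁ : ℝ, 0 ≤ B₁ ∧ ∀ (i : G.ι) (x y : EN N) (R : ℝ), 1 ≤ R → ‖x‖ ≤ R → ‖y‖ ≤ R → ‖G.E i x - G.E i y‖ ≤ B₁ * R ^ G.c i * ‖x - y‖ := by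
  have h1 : ∀ i : G.ι, ∃ L : ℝ, 0 ≤ L ∧ ∀ x ∈ closedBall (0 : EN N) 1, ∀ y ∈ closedBall (0 : EN N) 1, ‖G.E i x - G.E i y‖ ≤ L * ‖x - y‖ := by
    intro i
    have hc : Continuous fun x => fderiv ℂ (G.E i) x := continuous_iff_continuousAt.2 fun x => (hG.anE i x).fderiv.continuousAt
    obtain ⟨L, hL⟩ := ((isCompact_closedBall (0 : EN N) 1).image hc.norm).isBounded.bddAbove
    refine ⟨max L 0, le_max_right _ _, fun x hx y hy => ?_⟩
    refine Convex.norm_image_sub_le_of_norm_fderiv_le (𝕜 := ℂ) (s := closedBall (0 : EN N) 1) (f := G.E i) (fun z _ => (hG.anE i z).differentiableAt)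
      (fun z hz => (hL ⟨z, hz, rfl⟩).trans (le_max_left _ _)) (convex_closedBall _ _) hy hx
  choose L hL0 hL using h1
  refine ⟨∑ i, L i, Finset.sum_nonneg fun i _ => hL0 i, fun i x y R hR hx hy => ?_⟩
  have hR0 : 0 < R := lt_of_lt_of_le one_pos hR
  have hRc : (R : ℂ) ≠ 0 := Complex.ofReal_ne_zero.2 hR0.ne'
  have hn : ∀ x : EN N, ‖x‖ ≤ R → ((R : ℂ)⁻¹ • x) ∈ closedBall (0 : EN N) 1 := fun x hx => by
    rw [mem_closedBall, dist_zero_right, norm_smul, norm_inv, Complex.norm_real, Real.norm_of_nonneg hR0.le, inv_mul_le_iff₀ hR0, mul_one]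
    exact hx
  have hs : ∀ x : EN N, G.E i x = (R : ℂ) ^ G.c i • G.E i ((R : ℂ)⁻¹ • x) := fun x => by
    rw [← hG.smulE i, smul_smul, mul_inv_cancel₀ hRc, one_smul]
  have h2 := hL i _ (hn x hx) _ (hn y hy)
  rw [hs x, hs y, ← smul_sub, norm_smul, norm_pow, Complex.norm_real, Real.norm_of_nonneg hR0.le]
  have h3 : ‖(R : ℂ)⁻¹ • x - (R : ℂ)⁻¹ • y‖ ≤ ‖x - y‖ := by
    rw [← smul_sub, norm_smul, norm_inv, Complex.norm_real, Real.norm_of_nonneg hR0.le]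
    exact mul_le_of_le_one_left (norm_nonneg _) (inv_le_one_of_one_le₀ hR)
  have h4 : L i ≤ ∑ i, L i := Finset.single_le_sum (f := L) (fun i _ => hL0 i) (Finset.mem_univ i)
  calc R ^ G.c i * ‖G.E i ((R : ℂ)⁻¹ • x) - G.E i ((R : ℂ)⁻¹ • y)‖ ≤ R ^ G.c i * ((∑ i, L i) * ‖x - y‖) := by
        refine mul_le_mul_of_nonneg_left (h2.trans ?_) (pow_nonneg hR0.le _)
        exact mul_le_mul h4 h3 (norm_nonneg _) (Finset.sum_nonneg fun i _ => hL0 i)
    _ = _ := by ring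

end Pool.Agent.SR3.F
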