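import Pool.Agent.SR3.F.Defs
import Pool.Agent.SR3.EGa
import Pool.Agent.SR3.ALam
import Pool.Agent.SR3.AGrw
import Pool.Agent.SR3.ALow
import Pool.Agent.SR3.ASpd
import Pool.Agent.SR3.EGrad

/-!
# SR3 F Pot: the potential of a curve

The gradient of `log ‖F‖`: at a point `z` of depth `d`, with the nearest good point `a`, `h log ‖F‖ = ∑ b i lam i + O (1)` is `k y + O (d ^ γ)` on a disc of radius
comparable to `d` (`y` = the height over the line through `a`, `k ≥ A'` a constant), because the height of `z` is comparable to `d` (`lower`).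
-/

set_option autoImplicit false

open Topology Filter Metric Laplacian InnerProductSpace

noncomputable section

namespace Pool.Agent.SR3.F

open Pool.Agent.H36.BP (EN fs)
open Pool.Agent.H30M (gg)
open Pool.Agent.SDR (gc)
open Pool.Agent.SR3.G (Mem Str Facts TubeBd FirstP RigidF IsChain)
open Geo (Gd)

theorem gg_eq (u : ℂ → ℝ) (z : ℂ) : gg u u z = ‖gc u z‖ ^ 2 := by
  unfold gg gc
  rw [← Complex.normSq_eq_norm_sq, Complex.normSq_apply]
  simp

theorem pow_small {γ : ℝ} (hγ : γ < 1) (P : ℝ) {Q ε : ℝ} (hQ : 0 ≤ Q) (hε : 0 < ε) : ∃ κ : ℝ, ∀ d ≥ κ, P + Q * (2 + 2 * d) ^ γ ≤ ε * d := by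
  have ht : Tendsto (fun d : ℝ => 2 + 2 * d) atTop atTop := tendsto_atTop_add_const_left _ _ (tendsto_id.const_mul_atTop two_pos)
  have hc : 0 < ε / (8 * (Q + 1)) := by positivity
  have h1 : ∀ᶠ x : ℝ in atTop, x ^ γ ≤ ε / (8 * (Q + 1)) * x := by
    filter_upwards [(tendsto_rpow_neg_atTop (y := 1 - γ) (by linarith)).eventually (gt_mem_nhds hc), eventually_gt_atTop 0] with x hx hx0
    have h2 : x ^ γ = x ^ (-(1 - γ)) * x := by
      rw [← Real.rpow_add_one hx0.ne']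
      congr 1
      ring
    rw [h2]
    exact mul_le_mul_of_nonneg_right hx.le hx0.le
  have h3 := ht.eventually h1
  have h4 : ∀ᶠ d : ℝ in atTop, P + Q * (2 + 2 * d) ^ γ ≤ ε * d := by
    filter_upwards [h3, eventually_ge_atTop (1 : ℝ), eventually_ge_atTop (2 * P / ε)] with d hd hd1 hd2
    have h5 : (0 : ℝ) ≤ (2 + 2 * d) ^ γ := Real.rpow_nonneg (by linarith) _
    have h6 : P ≤ ε * d / 2 := by
      rw [div_le_iff₀ hε] at hd2
      linarith
    have h7 : Q * (2 + 2 * d) ^ γ ≤ Q * (ε / (8 * (Q + 1)) * (2 + 2 * d)) := mul_le_mul_of_nonneg_left hd hQ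
    have h8 : Q * (ε / (8 * (Q + 1)) * (2 + 2 * d)) ≤ ε * d / 2 := by
      have h9 : Q * (ε / (8 * (Q + 1)) * (2 + 2 * d)) = (Q / (Q + 1)) * (ε / 8 * (2 + 2 * d)) := by
        field_simp
      rw [h9]
      have h10 : Q / (Q + 1) ≤ 1 := (div_le_one (by linarith)).2 (by linarith)
      have h11 : 0 ≤ ε / 8 * (2 + 2 * d) := by positivity
      calc (Q / (Q + 1)) * (ε / 8 * (2 + 2 * d)) ≤ 1 * (ε / 8 * (2 + 2 * d)) := mul_le_mul_of_nonneg_right h10 h11
        _ ≤ ε * d / 2 := by nlinarith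
    linarith
  obtain ⟨κ, h⟩ := eventually_atTop.1 h4
  exact ⟨κ, h⟩

theorem yy_sub_le {u : ℂ} (hu : ‖u‖ = 1) (a w z : ℂ) : |yy u a w - yy u a z| ≤ ‖w - z‖ := by
  unfold yy
  rw [← Complex.sub_re]
  refine (Complex.abs_re_le_norm _).trans ?_
  rw [← mul_sub, norm_mul, norm_star, hu, one_mul]
  refine le_of_eq ?_
  congr 1
  ring

theorem yy_self (u a : ℂ) : yy u a a = 0 := by
  simp [yy]

theorem abs_yy_le {u : ℂ} (hu : ‖u‖ = 1) (a w : ℂ) : |yy u a w| ≤ ‖w - a‖ := by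
  have := yy_sub_le hu a w a
  rwa [yy_self, sub_zero] at this

theorem gc_yy (u a z : ℂ) : gc (yy u a) z = star u := by
  have h1 : AnalyticAt ℂ (fun w : ℂ => star u * (w - a)) z := by fun_prop
  have h2 := Pool.Agent.SDR.gc_re h1
  have h3 : deriv (fun w : ℂ => star u * (w - a)) z = star u := by
    have h4 : HasDerivAt (fun w : ℂ => star u * (w - a)) (star u * 1) z := ((hasDerivAt_id z).sub_const a).const_mul _
    rw [h4.deriv, mul_one]
  rw [h3] at h2
  exact h2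

theorem harm_yy (u a z : ℂ) : HarmonicAt (yy u a) z := by
  have h1 : AnalyticAt ℂ (fun w : ℂ => star u * (w - a)) z := by fun_prop
  exact h1.harmonicAt_re

theorem lin_sum {ι : Type} [Fintype ι] (b : ι → ℝ) (β β' : ι → ℝ) (u a w : ℂ) :
    ∑ i, b i * lin u a (β i) (β' i) w = lin u a (∑ i, b i * β i) (∑ i, b i * β' i) w := by
  unfold lin
  rw [Finset.sum_mul, Finset.sum_mul, ← Finset.sum_add_distrib]
  exact Finset.sum_congr rfl fun i _ => by ring

variable {N : ℕ} {G : Geo N} {T : Set (EN N)} {rho : EN N → ℝ} {M : ℕ} {c₀ C δ γ A' B : ℝ} {g : (ℂ → EN N) → ℂ → ℝ}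

/-- the gradient of `log ‖F‖` -/
theorem pot_grad (S : Base G T rho M c₀ C δ g) (hs : Str G T rho δ γ A' B) :
    ∃ κ c : ℝ, 1 ≤ κ ∧ 0 < c ∧ ∀ (q : G.J → ℂ) (F : ℂ → EN N), G.Cl T q F → ∀ z, κ ≤ infDist z (Gd rho δ F) →
      c ≤ ‖gc (fun w => Real.log ‖F w‖) z‖ := by
  have hG := S.ok
  obtain ⟨Bg, hBg, hgrow⟩ := growth S.ok S.met
  obtain ⟨cl, Bl, hcl, hlow⟩ := lower S
  obtain ⟨Bs, Rs, hBs, hRs, hspd⟩ := speed S
  obtain ⟨Bu, hBu, hup⟩ := lam_upperA S.ok
  obtain ⟨Cg, hCg, hgrad⟩ := Pool.Agent.SR3.BE.grad_est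
  have hh : 1 ≤ G.h := hG.aff.pos ()
  have hh' : (1 : ℝ) ≤ G.h := by exact_mod_cast hh
  have hh0 : (0 : ℝ) < G.h := by linarith
  have hA' := hs.A'_pos
  have hB := hs.B_pos
  have hγ0 := hs.γ_pos
  have hγ1 := hs.γ_lt
  set bs : ℝ := ∑ i, (G.b i : ℝ) with hbs
  have hbs0 : 0 ≤ bs := Finset.sum_nonneg fun _ _ => Nat.cast_nonneg _
  set Λ : ℝ := 2 * G.h * Bg + Bu + 3 * (bs * B) + 1 with hΛ
  have hΛ0 : 0 < Λ := by positivity
  set η : ℝ := min 1 (cl / (2 * Λ)) with hη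
  have hη0 : 0 < η := lt_min one_pos (by positivity)
  have hη1 : η ≤ 1 := min_le_left _ _
  have hηc : η ≤ cl / (2 * Λ) := min_le_right _ _
  obtain ⟨κ₁, hκ₁⟩ := pow_small hγ1 (Bl + Bu) (mul_nonneg hbs0 hB.le) (half_pos hcl)
  obtain ⟨κ₂, hκ₂⟩ := pow_small hγ1 (Cg * (4 / η) * Bu + 2 * Cg * Bs ^ 2 * η) (Q := Cg * (4 / η) * (bs * B)) (ε := A' / (2 * G.h)) (by positivity) (by positivity)
  refine ⟨max (max κ₁ κ₂) (max 1 (2 * Rs)), A' / (2 * G.h), (le_max_left _ _).trans (le_max_right _ _), by positivity, fun q F hF z hz => ?_⟩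
  set d : ℝ := infDist z (Gd rho δ F) with hd
  have hdκ₁ : κ₁ ≤ d := (le_max_left _ _).trans ((le_max_left _ _).trans hz)
  have hdκ₂ : κ₂ ≤ d := (le_max_right _ _).trans ((le_max_left _ _).trans hz)
  have hd1 : 1 ≤ d := (le_max_left _ _).trans ((le_max_right _ _).trans hz)
  have hdR : 2 * Rs ≤ d := (le_max_right _ _).trans ((le_max_right _ _).trans hz)
  have hne : (Gd rho δ F).Nonempty := by
    by_contra hne
    rw [Set.not_nonempty_iff_eq_empty] at hne
    rw [hd, hne, infDist_empty] at hd1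
    linarith
  obtain ⟨a, ha, had⟩ := (gd_closed S.ok S.met hF).exists_infDist_eq_dist hne z
  have hza : ‖z - a‖ = d := by rw [hd, had, dist_eq_norm]
  obtain ⟨u, β, β', ⟨hu, hβ, hfit⟩, hsum, hsum'⟩ := hs.fits q F hF a ha
  have hKmem : ∀ w, F w ∈ G.K := hF.ent.mem
  have hp : ∀ w, G.p (F w) = 1 := hF.nm
  set βs : ℝ := ∑ i, (G.b i : ℝ) * β i with hβs
  set βs' : ℝ := ∑ i, (G.b i : ℝ) * β' i with hβs'
  have hb1 : ∀ i, (1 : ℝ) ≤ G.b i := fun i => by exact_mod_cast hG.b_pos i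
  have hβA : A' ≤ βs := hsum.trans (Finset.sum_le_sum fun i _ => by nlinarith [hb1 i, (hβ i).1])
  have hβA' : A' ≤ βs' := hsum'.trans (Finset.sum_le_sum fun i _ => by nlinarith [hb1 i, (hβ i).2])
  -- the sum
  have hS : ∀ w, |∑ i, (G.b i : ℝ) * G.lam i (F w) - lin u a βs βs' w| ≤ bs * B * pw γ ‖w - a‖ := by
    intro w
    rw [hβs, hβs', ← lin_sum, ← Finset.sum_sub_distrib, hbs, Finset.sum_mul, Finset.sum_mul]
    refine (Finset.abs_sum_le_sum_abs _ _).trans (Finset.sum_le_sum fun i _ => ?_)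
    rw [← mul_sub, abs_mul, Nat.abs_cast, mul_assoc]
    exact mul_le_mul_of_nonneg_left (hfit w (Set.mem_univ w) i) (Nat.cast_nonneg _)
  -- upper bounds of the rates
  have hrate : ∀ s : ℝ, (s = 1 ∨ s = -1) → lin u a βs βs' (a + s * u) ≤ Λ - 1 := by
    intro s hs1
    have hsn : ‖a + s * u - a‖ = 1 := by
      rw [add_sub_cancel_left, norm_mul, hu, mul_one, Complex.norm_real, Real.norm_eq_abs]
      rcases hs1 with rfl | rfl <;> simp
    have h1 := hS (a + s * u)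
    rw [hsn] at h1
    have h2 := (abs_le.1 h1).1
    have h3 := (hup _ (hKmem (a + s * u)) (hp _)).2.2
    have h4 := hgrow q F hF (a + s * u)
    have h5 : infDist (a + s * u) (Gd rho δ F) ≤ 1 := by
      refine (infDist_le_dist_of_mem ha).trans (le_of_eq ?_)
      rw [dist_eq_norm, hsn]
    have h6 : Real.log ‖F (a + s * u)‖ ≤ 2 * Bg := h4.trans (by nlinarith)
    have h7 : (G.h : ℝ) * Real.log ‖F (a + s * u)‖ ≤ 2 * G.h * Bg := by nlinarith
    have h8 : pw γ 1 ≤ 3 := by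
      unfold pw
      calc (2 + 1 : ℝ) ^ γ ≤ (2 + 1 : ℝ) ^ (1 : ℝ) := Real.rpow_le_rpow_of_exponent_le (by norm_num) hγ1.le
        _ = 3 := by norm_num
    have h9 : bs * B * pw γ 1 ≤ 3 * (bs * B) := by nlinarith [mul_nonneg hbs0 hB.le]
    rw [hΛ]
    linarith
  have hyu : ∀ s : ℝ, yy u a (a + s * u) = s := by
    intro s
    unfold yy
    have h1 : star u * u = 1 := by
      show (starRingEnd ℂ) u * u = 1
      rw [← Complex.normSq_eq_conj_mul_self, Complex.normSq_eq_norm_sq, hu]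
      norm_num
    have h2 : star u * (a + s * u - a) = s * (star u * u) := by ring
    rw [h2, h1]
    simp
  have hβΛ : βs ≤ Λ - 1 := by
    have h1 := hrate 1 (Or.inl rfl)
    unfold lin at h1
    rw [hyu] at h1
    norm_num at h1
    exact h1
  have hβΛ' : βs' ≤ Λ - 1 := by
    have h1 := hrate (-1) (Or.inr rfl)
    unfold lin at h1
    rw [hyu] at h1
    norm_num at h1
    exact h1
  have hlinle : ∀ w, lin u a βs βs' w ≤ Λ * |yy u a w| := by
    intro w
    unfold lin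
    rcases le_total 0 (yy u a w) with h | h
    · rw [max_eq_left h, max_eq_right (by linarith), abs_of_nonneg h]
      nlinarith
    · rw [max_eq_right h, max_eq_left (by linarith), abs_of_nonpos h]
      nlinarith
  -- the height of `z`
  have hyz : η * d ≤ |yy u a z| := by
    have h1 := hlow q F hF z
    have h2 := (hup _ (hKmem z) (hp z)).2.1
    have h3 := (abs_le.1 (hS z)).2
    rw [hza] at h3
    have h4 := hlinle z
    have h5 := hκ₁ d hdκ₁
    have h6 : pw γ d ≤ (2 + 2 * d) ^ γ := Real.rpow_le_rpow (by linarith) (by linarith) hγ0.le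
    have h7 : bs * B * pw γ d ≤ bs * B * (2 + 2 * d) ^ γ := mul_le_mul_of_nonneg_left h6 (mul_nonneg hbs0 hB.le)
    have h8 : (G.h : ℝ) * Real.log ‖F z‖ ≤ Λ * |yy u a z| + bs * B * (2 + 2 * d) ^ γ + Bu := by linarith
    have h9 : 0 ≤ Λ * |yy u a z| + bs * B * (2 + 2 * d) ^ γ + Bu := by positivity
    have h10 : Real.log ‖F z‖ ≤ Λ * |yy u a z| + bs * B * (2 + 2 * d) ^ γ + Bu := by
      rcases le_total 0 (Real.log ‖F z‖) with h | h
      · nlinarith
      · linarith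
    have h11 : cl / 2 * d ≤ Λ * |yy u a z| := by linarith
    have h12 : η * d ≤ cl / (2 * Λ) * d := mul_le_mul_of_nonneg_right hηc (by linarith)
    refine h12.trans ?_
    have h13 : cl / (2 * Λ) * d = (cl / 2 * d) / Λ := by field_simp
    rw [h13, div_le_iff₀ hΛ0]
    linarith
  set r : ℝ := η * d / 4 with hr
  have hr0 : 0 < r := by positivity
  have hrd : r ≤ d / 4 := by
    rw [hr]
    have : η * d ≤ 1 * d := mul_le_mul_of_nonneg_right hη1 (by linarith)
    linarith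
  -- the slope
  obtain ⟨k, hkA, hk⟩ : ∃ k : ℝ, A' ≤ |k| ∧ ∀ w ∈ closedBall z r, lin u a βs βs' w = k * yy u a w := by
    rcases le_total 0 (yy u a z) with h | h
    · refine ⟨βs, hβA.trans (le_abs_self _), fun w hw => ?_⟩
      rw [mem_closedBall, dist_eq_norm] at hw
      have h1 := (abs_le.1 ((yy_sub_le hu a w z).trans hw)).1
      rw [abs_of_nonneg h] at hyz
      have h2 : 0 ≤ yy u a w := by
        have : r ≤ η * d := by rw [hr]; linarith [mul_pos hη0 (by linarith : 0 < d)]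
        linarith
      unfold lin
      rw [max_eq_left h2, max_eq_right (by linarith)]
      ring
    · refine ⟨-βs', by rw [abs_neg]; exact hβA'.trans (le_abs_self _), fun w hw => ?_⟩
      rw [mem_closedBall, dist_eq_norm] at hw
      have h1 := (abs_le.1 ((yy_sub_le hu a w z).trans hw)).2
      rw [abs_of_nonpos h] at hyz
      have h2 : yy u a w ≤ 0 := by
        have : r ≤ η * d := by rw [hr]; linarith [mul_pos hη0 (by linarith : 0 < d)]
        linarith
      unfold lin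
      rw [max_eq_right h2, max_eq_left (by linarith)]
      ring
  -- the function
  have hFd : Differentiable ℂ F := hF.ent.diff
  have hc2 : ∀ w, ContDiffAt ℝ 2 (fun w => Real.log ‖F w‖) w ∧ Δ (fun w => Real.log ‖F w‖) w = 2 * fs (F w) (deriv F w) ^ 2 :=
    fun w => ⟨(log_c2 (hFd.analyticAt w) (ne0 hG (hKmem w))).1, (log_c2 (hFd.analyticAt w) (ne0 hG (hKmem w))).2.1⟩
  set f : ℂ → ℝ := fun w => Real.log ‖F w‖ - (k / G.h) * yy u a w with hf
  have hy2 : ∀ w, ContDiffAt ℝ 2 (fun w => (k / G.h) * yy u a w) w ∧ Δ (fun w => (k / G.h) * yy u a w) w = 0 := by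
    intro w
    have h1 := harm_yy u a w
    refine ⟨contDiffAt_const.mul h1.1, ?_⟩
    have h2 := laplacian_smul (k / G.h : ℝ) h1.1
    rw [h1.2.self_of_nhds, Pi.zero_apply, smul_zero] at h2
    exact h2
  have hfΔ : ∀ w, Δ f w = 2 * fs (F w) (deriv F w) ^ 2 := by
    intro w
    have h1 := (hc2 w).1.laplacian_sub (hy2 w).1
    rw [(hc2 w).2, (hy2 w).2, sub_zero] at h1
    exact h1
  have hest := hgrad f z r (8 * Bs ^ 2 / d ^ 2) (Bu + bs * B * (2 + 2 * d) ^ γ) hr0 (by positivity) (by positivity)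
    (fun w _ => (hc2 w).1.sub (hy2 w).1) (fun w hw => ?_) (fun w hw => ?_)
  · have h1 : Cg * ((Bu + bs * B * (2 + 2 * d) ^ γ) / r + 8 * Bs ^ 2 / d ^ 2 * r) ≤ A' / (2 * G.h) := by
      have h2 := hκ₂ d hdκ₂
      have h3 : Cg * ((Bu + bs * B * (2 + 2 * d) ^ γ) / r + 8 * Bs ^ 2 / d ^ 2 * r) =
          (Cg * (4 / η) * Bu + 2 * Cg * Bs ^ 2 * η + Cg * (4 / η) * (bs * B) * (2 + 2 * d) ^ γ) / d := by
        rw [hr]
        have : d ≠ 0 := by linarith
        field_simp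
        ring
      rw [h3, div_le_iff₀ (by linarith)]
      exact h2
    have h2 : gc f z = gc (fun w => Real.log ‖F w‖) z - ((k / G.h : ℝ) : ℂ) * star u := by
      have e1 : DifferentiableAt ℝ (fun w => Real.log ‖F w‖) z := (hc2 z).1.differentiableAt two_ne_zero
      have e2 : DifferentiableAt ℝ (yy u a) z := (harm_yy u a z).1.differentiableAt two_ne_zero
      rw [hf, Pool.Agent.SDR.gc_sub e1 (e2.const_mul _), gc_const_mul e2, gc_yy]
    have h3 : ‖((k / G.h : ℝ) : ℂ) * star u‖ = |k| / G.h := by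
      rw [norm_mul, norm_star, hu, mul_one, Complex.norm_real, Real.norm_eq_abs, abs_div, abs_of_pos hh0]
    have h4 : A' / G.h ≤ |k| / G.h := div_le_div_of_nonneg_right hkA hh0.le
    have h5 : ‖((k / G.h : ℝ) : ℂ) * star u‖ ≤ ‖gc (fun w => Real.log ‖F w‖) z‖ + ‖gc f z‖ := by
      have : ((k / G.h : ℝ) : ℂ) * star u = gc (fun w => Real.log ‖F w‖) z - gc f z := by rw [h2]; ring
      rw [this]
      exact norm_sub_le _ _
    have h6 : A' / G.h = A' / (2 * G.h) + A' / (2 * G.h) := by field_simp; ring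
    linarith [hest.trans h1]
  · -- the Laplacian
    rw [mem_closedBall, dist_eq_norm] at hw
    have hdw : d / 2 ≤ infDist w (Gd rho δ F) := by
      have h1 : d ≤ infDist w (Gd rho δ F) + dist z w := infDist_le_infDist_add_dist
      rw [dist_eq_norm, norm_sub_rev] at h1
      linarith
    have h2 := hspd q F hF w (by linarith)
    have h3 : Bs / infDist w (Gd rho δ F) ≤ Bs / (d / 2) := div_le_div_of_nonneg_left hBs.le (by linarith) hdw
    have h4 : fs (F w) (deriv F w) ≤ 2 * Bs / d := (h2.trans h3).trans (le_of_eq (by field_simp))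
    have h5 : fs (F w) (deriv F w) ^ 2 ≤ (2 * Bs / d) ^ 2 := pow_le_pow_left₀ (Pool.Agent.H36.BP.fs_nonneg _ _) h4 2
    rw [hfΔ, abs_of_nonneg (by positivity)]
    calc 2 * fs (F w) (deriv F w) ^ 2 ≤ 2 * (2 * Bs / d) ^ 2 := by linarith
      _ = 8 * Bs ^ 2 / d ^ 2 := by ring
  · -- the values
    have h1 := hS w
    rw [hk w hw] at h1
    rw [mem_closedBall, dist_eq_norm] at hw
    have h2 : ‖w - a‖ ≤ 2 * d := by
      have : w - a = (w - z) + (z - a) := by ring
      rw [this]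
      refine (norm_add_le _ _).trans ?_
      rw [hza]
      linarith
    have h3 : pw γ ‖w - a‖ ≤ (2 + 2 * d) ^ γ := Real.rpow_le_rpow (by positivity) (by linarith) hγ0.le
    have h4 : bs * B * pw γ ‖w - a‖ ≤ bs * B * (2 + 2 * d) ^ γ := mul_le_mul_of_nonneg_left h3 (mul_nonneg hbs0 hB.le)
    have h5 := (hup _ (hKmem w) (hp w)).2
    have h6 : f w = (G.h * Real.log ‖F w‖ - k * yy u a w) / G.h := by
      rw [hf]
      field_simp
    rw [h6, abs_div, abs_of_pos hh0]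
    refine (div_le_self (abs_nonneg _) hh').trans ?_
    have h7 := abs_le.1 h1
    rw [abs_le]
    constructor <;> linarith [h7.1, h7.2, h5.1, h5.2]

/-- MODULE Pot. -/
theorem exists_pot (S : Base G T rho M c₀ C δ g) (hs : Str G T rho δ γ A' B) :
    ∃ κ c B₁ c₁ : ℝ, 1 ≤ κ ∧ 0 < c ∧ 1 ≤ B₁ ∧ 0 ≤ c₁ ∧ ∀ (q : G.J → ℂ) (F : ℂ → EN N), G.Cl T q F →
      Pot (fun z => Real.log ‖F z‖ + c₁) (fun z => infDist z (Gd rho δ F)) κ c B₁ := by
  have hG := S.ok
  obtain ⟨κ, c, hκ, hc, hgr⟩ := pot_grad S hs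
  obtain ⟨Bg, hBg, hgrow⟩ := growth S.ok S.met
  obtain ⟨cl, Bl, hcl, hlow⟩ := lower S
  obtain ⟨Bs, Rs, hBs, hRs, hspd⟩ := speed S
  obtain ⟨B₀, hB₀, hll⟩ := log_lower S.ok
  set c₁ : ℝ := 1 + B₀ + |Bl| with hc₁
  have hc₁0 : 0 ≤ c₁ := by positivity
  refine ⟨max κ Rs, min cl (c ^ 2), max (1 + Bg + c₁) (2 * Bs ^ 2), c₁, hκ.trans (le_max_left _ _), lt_min hcl (by positivity),
    (by linarith : (1 : ℝ) ≤ 1 + Bg + c₁).trans (le_max_left _ _), hc₁0, fun q F hF => ?_⟩
  have hKmem : ∀ w, F w ∈ G.K := hF.ent.mem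
  have hFd : Differentiable ℂ F := hF.ent.diff
  have hc2 : ∀ w, ContDiffAt ℝ 2 (fun w => Real.log ‖F w‖) w ∧ Δ (fun w => Real.log ‖F w‖) w = 2 * fs (F w) (deriv F w) ^ 2 :=
    fun w => ⟨(log_c2 (hFd.analyticAt w) (ne0 hG (hKmem w))).1, (log_c2 (hFd.analyticAt w) (ne0 hG (hKmem w))).2.1⟩
  have hlip : ∀ z w, infDist z (Gd rho δ F) - infDist w (Gd rho δ F) ≤ ‖z - w‖ := fun z w => by
    have h1 : infDist z (Gd rho δ F) ≤ infDist w (Gd rho δ F) + dist z w := infDist_le_infDist_add_dist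
    rw [dist_eq_norm] at h1
    linarith
  constructor
  · exact contDiff_iff_contDiffAt.2 fun w => (hc2 w).1.add contDiffAt_const
  · intro z
    have h1 := hll _ (hF.nm z)
    show 1 ≤ Real.log ‖F z‖ + c₁
    rw [hc₁]
    linarith [abs_nonneg Bl]
  · exact fun z => infDist_nonneg
  · intro z w
    rw [abs_le]
    constructor
    · have := hlip w z
      rw [norm_sub_rev] at this
      linarith
    · exact hlip z w
  · intro z
    have h1 := hgrow q F hF z
    have h2 : 0 ≤ infDist z (Gd rho δ F) := infDist_nonneg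
    calc Real.log ‖F z‖ + c₁ ≤ Bg * (1 + infDist z (Gd rho δ F)) + c₁ := by linarith
      _ ≤ (1 + Bg + c₁) * (1 + infDist z (Gd rho δ F)) := by nlinarith
      _ ≤ max (1 + Bg + c₁) (2 * Bs ^ 2) * (1 + infDist z (Gd rho δ F)) := mul_le_mul_of_nonneg_right (le_max_left _ _) (by linarith)
  · intro z hz
    have h1 := hlow q F hF z
    have h2 : 0 ≤ infDist z (Gd rho δ F) := infDist_nonneg
    have h3 : min cl (c ^ 2) * infDist z (Gd rho δ F) ≤ cl * infDist z (Gd rho δ F) := mul_le_mul_of_nonneg_right (min_le_left _ _) h2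
    show min cl (c ^ 2) * infDist z (Gd rho δ F) ≤ Real.log ‖F z‖ + c₁
    rw [hc₁]
    linarith [le_abs_self Bl]
  · intro z hz
    have hzR : Rs ≤ infDist z (Gd rho δ F) := (le_max_right _ _).trans hz
    have hz0 : 0 < infDist z (Gd rho δ F) := hRs.trans_le hzR
    have h1 : Δ (fun z => Real.log ‖F z‖ + c₁) z = 2 * fs (F z) (deriv F z) ^ 2 := by
      have h2 := (hc2 z).1.laplacian_add (contDiffAt_const (c := c₁))
      rw [(hc2 z).2] at h2
      have h3 : Δ (fun _ : ℂ => c₁) z = 0 := by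
        rw [InnerProductSpace.laplacian_const]
        rfl
      rw [h3, add_zero] at h2
      exact h2
    have h4 := hspd q F hF z hzR
    have h5 : fs (F z) (deriv F z) ^ 2 ≤ (Bs / infDist z (Gd rho δ F)) ^ 2 := pow_le_pow_left₀ (Pool.Agent.H36.BP.fs_nonneg _ _) h4 2
    show Δ (fun z => Real.log ‖F z‖ + c₁) z ≤ _
    rw [h1]
    calc 2 * fs (F z) (deriv F z) ^ 2 ≤ 2 * (Bs / infDist z (Gd rho δ F)) ^ 2 := by linarith
      _ = 2 * Bs ^ 2 / infDist z (Gd rho δ F) ^ 2 := by ring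
      _ ≤ max (1 + Bg + c₁) (2 * Bs ^ 2) / infDist z (Gd rho δ F) ^ 2 := div_le_div_of_nonneg_right (le_max_right _ _) (by positivity)
  · intro z hz
    have h1 := hgr q F hF z ((le_max_left _ _).trans hz)
    show min cl (c ^ 2) ≤ gg (fun z => Real.log ‖F z‖ + c₁) (fun z => Real.log ‖F z‖ + c₁) z
    have h2 : gc (fun z => Real.log ‖F z‖ + c₁) z = gc (fun z => Real.log ‖F z‖) z := by
      unfold gc
      rw [fderiv_add_const]
    rw [gg_eq, h2]
    exact (min_le_right _ _).trans (pow_le_pow_left₀ hc.le h1 2)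

end Pool.Agent.SR3.F
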