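import Pool.Agent.SR3.F.Defs
import Pool.Agent.SR3.ALam
import Pool.Agent.SR3.ASpd
import Pool.Agent.SR3.EGa

/-!
# SR3 F PotE: the logarithms of the equations of the boundary along a curve
-/

set_option autoImplicit false

open Topology Filter Metric Laplacian InnerProductSpace

noncomputable section

namespace Pool.Agent.SR3.F

open Pool.Agent.H36.BP (EN fs fs_nonneg)
open Pool.Agent.H14.PP (Tan)
open Geo (Gd)

variable {N : ℕ} {G : Geo N} {T : Set (EN N)} {rho : EN N → ℝ} {M : ℕ} {c₀ C δ γ A' B : ℝ} {g : (ℂ → EN N) → ℂ → ℝ}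

/-- MODULE PotE.  `log ‖E i (F)‖ = c i log ‖F‖ - lam i ≥ (c i - h) log ‖F‖ - B`; `Δ log ‖E i (F)‖ = 2 fs (E i F, dE i F')² ≤ C fs²`. -/
theorem exists_potE (S : Base G T rho M c₀ C δ g) :
    ∃ κ B₁ : ℝ, 1 ≤ κ ∧ 1 ≤ B₁ ∧ ∀ (q : G.J → ℂ) (F : ℂ → EN N), G.Cl T q F → ∀ i, ContDiff ℝ 2 (fun z => Real.log ‖G.E i (F z)‖) ∧
      (∀ z, κ ≤ infDist z (Gd rho δ F) → Δ (fun z => Real.log ‖G.E i (F z)‖) z ≤ B₁ / infDist z (Gd rho δ F) ^ 2) ∧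
      ∀ z, -B₁ ≤ Real.log ‖G.E i (F z)‖ := by
  have hG := S.ok
  obtain ⟨B₂, R₂, hB₂, hR₂, hsp⟩ := speed S
  obtain ⟨C₁, hC₁, hfs⟩ := hG.fsE
  obtain ⟨B₃, hB₃, hlow⟩ := log_lower hG
  obtain ⟨B₄, hB₄, hup⟩ := lam_upperA hG
  have hs0 : (0 : ℝ) ≤ ∑ i, (G.c i : ℝ) := Finset.sum_nonneg fun _ _ => Nat.cast_nonneg _
  refine ⟨max R₂ 1, 1 + 2 * C₁ ^ 2 * B₂ ^ 2 + ((∑ i, (G.c i : ℝ)) * B₃ + B₄), le_max_right _ _, by
    have : 0 ≤ 2 * C₁ ^ 2 * B₂ ^ 2 + ((∑ i, (G.c i : ℝ)) * B₃ + B₄) := by positivity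
    linarith, fun q F hF i => ?_⟩
  have hFd : Differentiable ℂ F := hF.ent.diff
  have hFK : ∀ z, F z ∈ G.K := hF.ent.mem
  have hFan : ∀ z, AnalyticAt ℂ F z := fun z => hFd.analyticAt z
  have hEF : ∀ z, AnalyticAt ℂ (fun w => G.E i (F w)) z := fun z => (hG.anE i (F z)).comp (hFan z)
  have hE0 : ∀ z, G.E i (F z) ≠ 0 := fun z => hG.neE i _ (hFK z)
  have hd : ∀ z, deriv (fun w => G.E i (F w)) z = fderiv ℂ (G.E i) (F z) (deriv F z) := fun z =>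
    ((hG.anE i (F z)).differentiableAt.hasFDerivAt.comp_hasDerivAt z (hFd z).hasDerivAt).deriv
  refine ⟨contDiff_iff_contDiffAt.2 fun z => (log_c2 (hEF z) (hE0 z)).1, fun z hz => ?_, fun z => ?_⟩
  · have h1 : R₂ ≤ infDist z (Gd rho δ F) := (le_max_left _ _).trans hz
    have h2 : 0 < infDist z (Gd rho δ F) := lt_of_lt_of_le hR₂ h1
    have h3 := hsp q F hF z h1
    have h4 := hfs i (F z) (hFK z) (deriv F z) (tan hG hFd hFK z)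
    rw [(log_c2 (hEF z) (hE0 z)).2.1, hd z]
    have h5 : fs (G.E i (F z)) (fderiv ℂ (G.E i) (F z) (deriv F z)) ≤ C₁ * (B₂ / infDist z (Gd rho δ F)) :=
      h4.trans (mul_le_mul_of_nonneg_left h3 hC₁)
    have h6 : fs (G.E i (F z)) (fderiv ℂ (G.E i) (F z) (deriv F z)) ^ 2 ≤ (C₁ * (B₂ / infDist z (Gd rho δ F))) ^ 2 :=
      pow_le_pow_left₀ (fs_nonneg _ _) h5 2
    calc 2 * fs (G.E i (F z)) (fderiv ℂ (G.E i) (F z) (deriv F z)) ^ 2 ≤ 2 * (C₁ * (B₂ / infDist z (Gd rho δ F))) ^ 2 := by linarith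
      _ = (2 * C₁ ^ 2 * B₂ ^ 2) / infDist z (Gd rho δ F) ^ 2 := by
        field_simp
      _ ≤ _ := by
        refine div_le_div_of_nonneg_right ?_ (sq_nonneg _)
        have : 0 ≤ (∑ i, (G.c i : ℝ)) * B₃ + B₄ := by positivity
        linarith
  · have h1 := (hup (F z) (hFK z) (hF.nm z)).1 i
    have h2 := hlow (F z) (hF.nm z)
    have h3 : Real.log ‖G.E i (F z)‖ = G.c i * Real.log ‖F z‖ - G.lam i (F z) := by
      unfold Geo.lam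
      ring
    have h4 : (G.h : ℝ) + 1 ≤ G.c i := by exact_mod_cast hG.c_ge i
    have h5 : (G.c i : ℝ) ≤ ∑ i, (G.c i : ℝ) :=
      Finset.single_le_sum (f := fun i => (G.c i : ℝ)) (fun _ _ => Nat.cast_nonneg _) (Finset.mem_univ i)
    have h6 : (0 : ℝ) ≤ G.h := Nat.cast_nonneg _
    have h7 : -(((G.c i : ℝ) - G.h) * B₃) ≤ ((G.c i : ℝ) - G.h) * Real.log ‖F z‖ := by
      have := mul_le_mul_of_nonneg_left h2 (by linarith : (0 : ℝ) ≤ (G.c i : ℝ) - G.h)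
      linarith
    have h8 : ((G.c i : ℝ) - G.h) * B₃ ≤ (∑ i, (G.c i : ℝ)) * B₃ := mul_le_mul_of_nonneg_right (by linarith) hB₃
    have h9 : 0 ≤ 2 * C₁ ^ 2 * B₂ ^ 2 := by positivity
    rw [h3]
    linarith

end Pool.Agent.SR3.F
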