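import Pool.Agent.MQ.FS
import Pool.Agent.SR3.EMax

/-!
# SR3 F Mx: maximum principle for `‖U‖ exp (-W)`, `U` entire with values in a Hilbert space

At a maximum of `‖U‖ exp (-W)` over the closed ball, greater than `1`, the function `log ‖U‖ - W` would have a positive Laplacian.
-/

set_option autoImplicit false

open Topology Filter Metric Laplacian InnerProductSpace

noncomputable section

namespace Pool.Agent.SR3.F

variable {V : Type} [NormedAddCommGroup V] [InnerProductSpace ℂ V] [CompleteSpace V]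

theorem bar_ball {U : ℂ → V} (hU : Differentiable ℂ U) {W : ℂ → ℝ} {a : ℂ} {R : ℝ} (hW : ∀ z ∈ closedBall a R, ContDiffAt ℝ 2 W z) {E : Set ℂ}
    (hlap : ∀ z ∈ ball a R, z ∈ E → Δ W z < 0) (hout : ∀ z ∈ closedBall a R, z ∉ E → ‖U z‖ ≤ Real.exp (W z))
    (hbd : ∀ z ∈ sphere a R, ‖U z‖ ≤ Real.exp (W z)) : ∀ z ∈ closedBall a R, ‖U z‖ ≤ Real.exp (W z) := by
  intro z hz
  by_contra h
  push Not at h
  have hg : ∀ w : ℂ, 1 < ‖U w‖ * Real.exp (-W w) ↔ Real.exp (W w) < ‖U w‖ := by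
    intro w
    rw [Real.exp_neg, ← div_eq_mul_inv, one_lt_div (Real.exp_pos _)]
  have hcont : ContinuousOn (fun w => ‖U w‖ * Real.exp (-W w)) (closedBall a R) := by
    refine (hU.continuous.norm.continuousOn).mul (Real.continuous_exp.comp_continuousOn ?_)
    exact ContinuousOn.neg fun w hw => (hW w hw).continuousAt.continuousWithinAt
  obtain ⟨w, hw, hmax⟩ := (isCompact_closedBall a R).exists_isMaxOn ⟨z, hz⟩ hcont
  have h1 : 1 < ‖U w‖ * Real.exp (-W w) := lt_of_lt_of_le ((hg z).2 h) (hmax hz)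
  have h2 : Real.exp (W w) < ‖U w‖ := (hg w).1 h1
  have hw0 : U w ≠ 0 := norm_pos_iff.1 ((Real.exp_pos _).trans h2)
  have hwb : w ∈ ball a R := by
    have h3 : dist w a ≤ R := hw
    rcases h3.lt_or_eq with h4 | h4
    · exact h4
    · exact absurd (hbd w h4) (not_le.2 h2)
  have hwE : w ∈ E := by
    by_contra h3
    exact absurd (hout w hw h3) (not_le.2 h2)
  have hA : AnalyticAt ℂ U w := hU.analyticAt w
  have hL : ContDiffAt ℝ 2 (fun v => Real.log ‖U v‖) w := MQ.contDiffAt_log_norm hA hw0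
  have hf : ContDiffAt ℝ 2 (fun v => Real.log ‖U v‖ - W v) w := hL.sub (hW w hw)
  have hloc : IsLocalMax (fun v => Real.log ‖U v‖ - W v) w := by
    have h3 : ∀ᶠ v in 𝓝 w, U v ≠ 0 := hA.continuousAt.eventually_ne hw0
    have h4 : ∀ᶠ v in 𝓝 w, v ∈ ball a R := isOpen_ball.mem_nhds hwb
    filter_upwards [h3, h4] with v h5 h6
    have h7 : ‖U v‖ * Real.exp (-W v) ≤ ‖U w‖ * Real.exp (-W w) := hmax (ball_subset_closedBall h6)
    have h8 := Real.log_le_log (mul_pos (norm_pos_iff.2 h5) (Real.exp_pos _)) h7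
    rw [Real.log_mul (norm_pos_iff.2 h5).ne' (Real.exp_pos _).ne', Real.log_mul (norm_pos_iff.2 hw0).ne' (Real.exp_pos _).ne', Real.log_exp,
      Real.log_exp] at h8
    show Real.log ‖U v‖ - W v ≤ Real.log ‖U w‖ - W w
    linarith
  have h3 := BE.laplacian_le_zero hf hloc
  have h4 : Δ (fun v => Real.log ‖U v‖ - W v) w = Δ (fun v => Real.log ‖U v‖) w - Δ W w := hL.laplacian_sub (hW w hw)
  have h5 := MQ.lap_log_normV_nonneg hA hw0
  have h6 := hlap w hwb hwE
  linarith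

theorem bar_all {U : ℂ → V} (hU : Differentiable ℂ U) {W : ℂ → ℝ} (hW : ContDiff ℝ 2 W) {E : Set ℂ} (hlap : ∀ z ∈ E, Δ W z < 0)
    (hout : ∀ z ∉ E, ‖U z‖ ≤ Real.exp (W z)) {R : ℝ} (hinf : ∀ z, R ≤ ‖z‖ → ‖U z‖ ≤ Real.exp (W z)) : ∀ z, ‖U z‖ ≤ Real.exp (W z) := by
  intro z
  rcases le_total R ‖z‖ with h | h
  · exact hinf z h
  · refine bar_ball (a := 0) (R := R) hU (fun w _ => hW.contDiffAt) (E := E) (fun w _ hw => hlap w hw) (fun w _ hw => hout w hw)
      (fun w hw => hinf w ?_) z (by simpa using h)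
    rw [mem_sphere_zero_iff_norm.1 hw]

end Pool.Agent.SR3.F
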