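import Pool.Agent.SR3.F.Sg
import Pool.Agent.SR3.F.Mx
import Pool.Agent.SR3.F.Hat

/-!
# SR3 F Cmp: comparison in the plane

`W = rB + K₁ Sg A γ' (rh) + e ε Sg A γₙ (rh)`, `γₙ = 1 - 1 / (2 + log (2 + n))`, on `E = {κ' ≤ d}`, in `bar_all`; `min t n ≤ e (1 + t²)^(γₙ/2)`.
-/

set_option autoImplicit false

open Topology Filter Metric Laplacian InnerProductSpace

noncomputable section

namespace Pool.Agent.SR3.F

open Pool.Agent.H30M (gg lap_add lap_const_mul)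

/-! ## elementary inequalities -/

/-- `(1 + t²)^(γ/2)` -/
def pq (γ t : ℝ) : ℝ := (1 + t ^ 2) ^ (γ / 2)

theorem one_le_pq {γ : ℝ} (hγ : 0 ≤ γ) (t : ℝ) : 1 ≤ pq γ t :=
  Real.one_le_rpow (by nlinarith [sq_nonneg t]) (by linarith)

theorem pq_eq {γ t : ℝ} : pq γ t = (Real.sqrt (1 + t ^ 2)) ^ γ := by
  rw [pq, Real.sqrt_eq_rpow, ← Real.rpow_mul (by positivity)]
  congr 1
  ring

/-- `(2 + t)^γ ≤ 3 (1 + t²)^(γ/2)` -/
theorem pw_le_pq {γ t : ℝ} (hγ : 0 ≤ γ) (hγ1 : γ ≤ 1) (ht : 0 ≤ t) : pw γ t ≤ 3 * pq γ t := by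
  have h1 : t ≤ Real.sqrt (1 + t ^ 2) := Real.le_sqrt_of_sq_le (by linarith)
  have h2 : 1 ≤ Real.sqrt (1 + t ^ 2) := Real.le_sqrt_of_sq_le (by nlinarith [sq_nonneg t])
  have h3 : 2 + t ≤ 3 * Real.sqrt (1 + t ^ 2) := by linarith
  rw [pq_eq, pw]
  calc (2 + t) ^ γ ≤ (3 * Real.sqrt (1 + t ^ 2)) ^ γ := Real.rpow_le_rpow (by linarith) h3 hγ
    _ = 3 ^ γ * (Real.sqrt (1 + t ^ 2)) ^ γ := Real.mul_rpow (by norm_num) (by positivity)
    _ ≤ 3 * (Real.sqrt (1 + t ^ 2)) ^ γ := by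
        refine mul_le_mul_of_nonneg_right ?_ (by positivity)
        calc (3 : ℝ) ^ γ ≤ 3 ^ (1 : ℝ) := Real.rpow_le_rpow_of_exponent_le (by norm_num) hγ1
          _ = 3 := Real.rpow_one 3

/-- `(1 + t²)^(γ/2) ≤ (2 + t)^γ` -/
theorem pq_le_pw {γ t : ℝ} (hγ : 0 ≤ γ) (ht : 0 ≤ t) : pq γ t ≤ pw γ t := by
  rw [pq_eq, pw]
  refine Real.rpow_le_rpow (by positivity) ?_ hγ
  rw [Real.sqrt_le_left (by linarith)]
  nlinarith

theorem pw_mono_exp {γ γ' t : ℝ} (h : γ ≤ γ') (ht : 0 ≤ t) : pw γ t ≤ pw γ' t :=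
  Real.rpow_le_rpow_of_exponent_le (by linarith) h

/-- `min t n ≤ e (1 + t²)^(γₙ/2)` -/
theorem min_le_pq {t n : ℝ} (_ht : 0 ≤ t) (hn : 0 ≤ n) : min t n ≤ Real.exp 1 * pq (1 - 1 / (2 + Real.log (2 + n))) t := by
  have hl : 0 < Real.log (2 + n) := Real.log_pos (by linarith)
  set γ := 1 - 1 / (2 + Real.log (2 + n)) with hγ_def
  have hγ0 : 0 ≤ γ := by
    have h1 : 1 / (2 + Real.log (2 + n)) ≤ 1 := by
      rw [div_le_one (by linarith)]
      linarith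
    linarith
  rcases le_or_gt (min t n) 1 with h1 | h1
  · have h2 := one_le_pq hγ0 t
    have h3 : (1 : ℝ) ≤ Real.exp 1 := Real.one_le_exp (by norm_num)
    calc min t n ≤ 1 * 1 := by linarith
      _ ≤ Real.exp 1 * pq γ t := mul_le_mul h3 h2 zero_le_one (by positivity)
  · set s := min t n with hs_def
    have hs0 : 0 < s := by linarith
    have hst : s ≤ t := min_le_left _ _
    have hsn : s ≤ n := min_le_right _ _
    have h2 : s ^ γ ≤ pq γ t := by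
      rw [pq_eq]
      refine Real.rpow_le_rpow hs0.le (hst.trans (Real.le_sqrt_of_sq_le (by linarith))) hγ0
    have h3 : s = Real.exp (Real.log s / (2 + Real.log (2 + n))) * s ^ γ := by
      rw [Real.rpow_def_of_pos hs0, ← Real.exp_add]
      have h4 : Real.log s / (2 + Real.log (2 + n)) + Real.log s * γ = Real.log s := by
        rw [hγ_def]
        field_simp
        ring
      rw [h4, Real.exp_log hs0]
    have h5 : Real.log s / (2 + Real.log (2 + n)) ≤ 1 := by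
      rw [div_le_one (by linarith)]
      have h6 : Real.log s ≤ Real.log (2 + n) := Real.log_le_log hs0 (by linarith)
      linarith
    calc s = Real.exp (Real.log s / (2 + Real.log (2 + n))) * s ^ γ := h3
      _ ≤ Real.exp 1 * pq γ t := mul_le_mul (Real.exp_le_exp.2 h5) h2 (by positivity) (by positivity)

/-- `Q' (2 + t)^γ ≤ (1 + t²)^(γ'/2)` for large `t` -/
theorem exists_large {γ γ' : ℝ} (hγ : 0 < γ) (hγγ' : γ < γ') (hγ' : γ' < 1) (Q' : ℝ) : ∃ R : ℝ, ∀ t, R ≤ t → 0 ≤ t → Q' * pw γ t ≤ pq γ' t := by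
  have h1 : Tendsto (fun t : ℝ => (2 + t) ^ (-(γ' - γ))) atTop (𝓝 0) :=
    (tendsto_rpow_neg_atTop (sub_pos.2 hγγ')).comp (tendsto_atTop_add_const_left _ 2 tendsto_id)
  have hpos : 0 < 1 / (3 * (|Q'| + 1)) := by positivity
  obtain ⟨R, hR⟩ := eventually_atTop.1 (h1.eventually (gt_mem_nhds hpos))
  refine ⟨R, fun t ht ht0 => ?_⟩
  have h2 := (hR t ht).le
  have h3 : pw γ t = pw γ' t * (2 + t) ^ (-(γ' - γ)) := by
    rw [pw, pw, ← Real.rpow_add (by linarith)]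
    congr 1
    ring
  have hpw : 0 ≤ pw γ' t := by unfold pw; positivity
  have h4 : pw γ t ≤ pw γ' t * (1 / (3 * (|Q'| + 1))) := by
    rw [h3]
    exact mul_le_mul_of_nonneg_left h2 hpw
  have h5 : Q' * pw γ t ≤ (|Q'| + 1) * pw γ t :=
    mul_le_mul_of_nonneg_right (by linarith [le_abs_self Q']) (by unfold pw; positivity)
  have h6 : (|Q'| + 1) * pw γ t ≤ (|Q'| + 1) * (pw γ' t * (1 / (3 * (|Q'| + 1)))) := mul_le_mul_of_nonneg_left h4 (by positivity)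
  have h7 : (|Q'| + 1) * (pw γ' t * (1 / (3 * (|Q'| + 1)))) = pw γ' t / 3 := by
    field_simp
  have h8 := pw_le_pq (hγ.le.trans hγγ'.le) hγ'.le ht0
  linarith

theorem Sg_eq (A γ : ℝ) (r : ℂ → ℝ) (z : ℂ) : Sg A γ r z = pq γ ‖z‖ + A / (1 - γ) * r z ^ γ := rfl

theorem pq_le_Sg {A γ : ℝ} (hA : 0 ≤ A) (hγ : γ < 1) {r : ℂ → ℝ} {z : ℂ} (hr : 1 ≤ r z) : pq γ ‖z‖ ≤ Sg A γ r z := by
  rw [Sg_eq]
  have h1 : 0 ≤ A / (1 - γ) * r z ^ γ := mul_nonneg (div_nonneg hA (by linarith)) (Real.rpow_nonneg (by linarith) _)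
  linarith

/-- upper bound of `Sg` -/
theorem Sg_le {A γ B D : ℝ} (hA : 0 ≤ A) (hγ0 : 0 ≤ γ) (hγ : γ < 1) (hB : 1 ≤ B) (hD : 0 ≤ D) {r d : ℂ → ℝ} {κ c : ℝ} (hr : Hat r d κ c B) (hd : d 0 ≤ D)
    (z : ℂ) : Sg A γ r z ≤ (1 + A * (B * (1 + D)) / (1 - γ)) * pw γ ‖z‖ := by
  have h1 : r z ≤ B * (1 + D) * (2 + ‖z‖) := by
    have h2 := hr.le z
    have h3 : d z ≤ D + ‖z‖ := by
      have h4 := (abs_le.1 (hr.lip z 0)).2
      rw [sub_zero] at h4
      linarith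
    have h5 : 0 ≤ ‖z‖ := norm_nonneg z
    calc r z ≤ B * (1 + d z) := h2
      _ ≤ B * ((1 + D) * (2 + ‖z‖)) := mul_le_mul_of_nonneg_left (by nlinarith) (by linarith)
      _ = B * (1 + D) * (2 + ‖z‖) := by ring
  have hBD : 1 ≤ B * (1 + D) := by nlinarith
  have h2 : r z ^ γ ≤ B * (1 + D) * pw γ ‖z‖ := by
    calc r z ^ γ ≤ (B * (1 + D) * (2 + ‖z‖)) ^ γ := Real.rpow_le_rpow (by linarith [hr.one_le z]) h1 hγ0
      _ = (B * (1 + D)) ^ γ * pw γ ‖z‖ := by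
          rw [Real.mul_rpow (by linarith) (by positivity)]
          rfl
      _ ≤ B * (1 + D) * pw γ ‖z‖ := by
          refine mul_le_mul_of_nonneg_right ?_ (by unfold pw; positivity)
          calc (B * (1 + D)) ^ γ ≤ (B * (1 + D)) ^ (1 : ℝ) := Real.rpow_le_rpow_of_exponent_le hBD hγ.le
            _ = B * (1 + D) := Real.rpow_one _
  rw [Sg_eq]
  have h3 : A / (1 - γ) * r z ^ γ ≤ A / (1 - γ) * (B * (1 + D) * pw γ ‖z‖) :=
    mul_le_mul_of_nonneg_left h2 (div_nonneg hA (by linarith))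
  have h4 := pq_le_pw hγ0 (norm_nonneg z)
  calc pq γ ‖z‖ + A / (1 - γ) * r z ^ γ ≤ pw γ ‖z‖ + A / (1 - γ) * (B * (1 + D) * pw γ ‖z‖) := by linarith
    _ = (1 + A * (B * (1 + D)) / (1 - γ)) * pw γ ‖z‖ := by ring

variable {V : Type} [NormedAddCommGroup V] [InnerProductSpace ℂ V] [CompleteSpace V]

/-- MODULE Cmp.  `W = rB + K₁ Sg A γ' (rh) + e ε Sg A γₙ (rh)`, `γₙ = 1 - 1 / (2 + log (2 + n))`, on `E = {κ' < d}`, in `bar_all`;
`min t n ≤ e (1 + t²)^(γₙ/2)`. -/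
theorem compare {κ c B : ℝ} (hκ : 1 ≤ κ) (hc : 0 < c) (hB : 1 ≤ B) : ∃ κ' : ℝ, κ ≤ κ' ∧ ∀ D γ γ' Q : ℝ, 0 ≤ D → 0 < γ → γ < γ' → γ' < 1 → 0 ≤ Q →
    ∃ K : ℝ, 0 ≤ K ∧ ∀ r d : ℂ → ℝ, Pot r d κ c B → d 0 ≤ D → ∀ rB : ℂ → ℝ, ContDiff ℝ 2 rB → (∀ z, κ ≤ d z → Δ rB z ≤ B / d z ^ 2) →
      (∀ z, -Q ≤ rB z) → ∀ U : ℂ → V, Differentiable ℂ U → ∀ ε n Q' : ℝ, 0 ≤ ε → 0 ≤ n →
        (∀ z, d z ≤ κ' → ‖U z‖ ≤ Real.exp (Q * pw γ ‖z‖ + ε * min ‖z‖ n)) → (∀ z, ‖U z‖ ≤ Real.exp (rB z + Q' * pw γ ‖z‖)) →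
          ∀ z, ‖U z‖ ≤ Real.exp (rB z + K * pw γ' ‖z‖ + K * ε * Real.log (2 + n) * (1 + ‖z‖)) := by
  obtain ⟨A₀, κ', B', hA₀, hκκ', hB', hhat⟩ := exists_hat hκ hc hB
  refine ⟨κ', hκκ', fun D γ γ' Q hD hγ hγγ' hγ' hQ => ?_⟩
  obtain ⟨A, c', hA, hc', hSg⟩ := exists_Sg (hκ.trans hκκ') hc hB' hD
  have hγ'0 : 0 < γ' := hγ.trans hγγ'
  have hB0 : 0 < B := by linarith
  -- the constants
  set K₁ : ℝ := 4 * Q + 4 * B / (γ' * c') + 1 with hK₁
  have hK₁0 : 1 ≤ K₁ := by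
    have h1 : 0 ≤ 4 * B / (γ' * c') := by positivity
    linarith
  have hBD : 0 ≤ B' * (1 + D) := mul_nonneg (by linarith) (by linarith)
  refine ⟨K₁ * (1 + A * (B' * (1 + D)) / (1 - γ')) + Real.exp 1 * (2 + 10 * (A * (B' * (1 + D)))), by
    have h1 : 0 ≤ A * (B' * (1 + D)) / (1 - γ') := div_nonneg (mul_nonneg hA.le hBD) (by linarith)
    positivity, ?_⟩
  intro r d hP hd0 rB hrB hΔB hQB U hU ε n Q' hε hn hin hout z
  set rr := rh A₀ r with hrr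
  have hH : Hat rr d κ' c B' := hhat r d hP
  set γn : ℝ := 1 - 1 / (2 + Real.log (2 + n)) with hγn
  have hl : 0 < Real.log (2 + n) := Real.log_pos (by linarith)
  have hγn1 : γn < 1 := by
    have : 0 < 1 / (2 + Real.log (2 + n)) := by positivity
    linarith
  have hγn0 : 0 < γn := by
    have h1 : 1 / (2 + Real.log (2 + n)) < 1 := by
      rw [div_lt_one (by linarith)]
      linarith
    linarith
  obtain ⟨hS1, hS1'⟩ := hSg rr d hH hd0 γ' hγ'0 hγ'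
  obtain ⟨hS2, hS2'⟩ := hSg rr d hH hd0 γn hγn0 hγn1
  have hW : ContDiff ℝ 2 fun w => rB w + (K₁ * Sg A γ' rr w + Real.exp 1 * ε * Sg A γn rr w) :=
    hrB.add ((contDiff_const.mul hS1).add (contDiff_const.mul hS2))
  have hlap : ∀ w, Δ (fun w => rB w + (K₁ * Sg A γ' rr w + Real.exp 1 * ε * Sg A γn rr w)) w =
      Δ rB w + (K₁ * Δ (Sg A γ' rr) w + Real.exp 1 * ε * Δ (Sg A γn rr) w) := by
    intro w
    rw [lap_add hrB.contDiffAt ((contDiff_const.mul hS1).add (contDiff_const.mul hS2)).contDiffAt,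
      lap_add (contDiff_const.mul hS1).contDiffAt (contDiff_const.mul hS2).contDiffAt, lap_const_mul hS1.contDiffAt,
      lap_const_mul hS2.contDiffAt]
  have hrr1 : ∀ w, 1 ≤ rr w := hH.one_le
  -- `Q + Q (2 + |z|)^γ ≤ K₁ Sg`
  have hlow : ∀ w : ℂ, pq γ' ‖w‖ ≤ Sg A γ' rr w := fun w => pq_le_Sg hA.le hγ' (hrr1 w)
  have hlow2 : ∀ w : ℂ, ε * min ‖w‖ n ≤ Real.exp 1 * ε * Sg A γn rr w := fun w => by
    calc ε * min ‖w‖ n ≤ ε * (Real.exp 1 * pq γn ‖w‖) := mul_le_mul_of_nonneg_left (min_le_pq (norm_nonneg w) hn) hε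
      _ ≤ ε * (Real.exp 1 * Sg A γn rr w) :=
          mul_le_mul_of_nonneg_left (mul_le_mul_of_nonneg_left (pq_le_Sg hA.le hγn1 (hrr1 w)) (Real.exp_pos 1).le) hε
      _ = Real.exp 1 * ε * Sg A γn rr w := by ring
  obtain ⟨R, hR⟩ := exists_large hγ hγγ' hγ' Q'
  have hmain := bar_all (U := U) hU hW (E := {w | κ' ≤ d w}) (R := R) ?_ ?_ ?_ z
  · refine hmain.trans (Real.exp_le_exp.2 ?_)
    have h1 := Sg_le hA.le hγ'0.le hγ' hB' hD hH hd0 z
    have h2 := Sg_le hA.le hγn0.le hγn1 hB' hD hH hd0 z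
    have h3 : 1 / (1 - γn) = 2 + Real.log (2 + n) := by
      rw [hγn]
      field_simp
      ring
    have hlog2 : (1 : ℝ) / 2 ≤ Real.log (2 + n) := by
      have h4 : Real.log 2 ≤ Real.log (2 + n) := Real.log_le_log (by norm_num) (by linarith)
      have h5 := Real.log_two_gt_d9
      linarith
    have ht : 0 ≤ ‖z‖ := norm_nonneg z
    have hLt : 0 ≤ Real.log (2 + n) * (1 + ‖z‖) := mul_nonneg hl.le (by linarith)
    have hpw : pw γn ‖z‖ ≤ 2 + ‖z‖ := by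
      calc pw γn ‖z‖ ≤ (2 + ‖z‖) ^ (1 : ℝ) := Real.rpow_le_rpow_of_exponent_le (by linarith) hγn1.le
        _ = 2 + ‖z‖ := Real.rpow_one _
    have hABD : 0 ≤ A * (B' * (1 + D)) := mul_nonneg hA.le hBD
    -- a sharper use of the two parts of `Sg`
    have h6 : Sg A γn rr z ≤ (2 + 10 * (A * (B' * (1 + D)))) * (Real.log (2 + n) * (1 + ‖z‖)) := by
      have h7 : pq γn ‖z‖ ≤ 1 + ‖z‖ := by
        rw [pq_eq]
        have h8 : Real.sqrt (1 + ‖z‖ ^ 2) ≤ 1 + ‖z‖ := by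
          rw [Real.sqrt_le_left (by linarith)]
          nlinarith
        have h9 : 1 ≤ Real.sqrt (1 + ‖z‖ ^ 2) := Real.le_sqrt_of_sq_le (by nlinarith [sq_nonneg ‖z‖])
        calc Real.sqrt (1 + ‖z‖ ^ 2) ^ γn ≤ Real.sqrt (1 + ‖z‖ ^ 2) ^ (1 : ℝ) := Real.rpow_le_rpow_of_exponent_le h9 hγn1.le
          _ = Real.sqrt (1 + ‖z‖ ^ 2) := Real.rpow_one _
          _ ≤ 1 + ‖z‖ := h8
      have h8 : A / (1 - γn) * rr z ^ γn ≤ A * (2 + Real.log (2 + n)) * (B' * (1 + D) * (2 + ‖z‖)) := by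
        have h9 : A / (1 - γn) = A * (2 + Real.log (2 + n)) := by
          rw [← h3]
          ring
        rw [h9]
        refine mul_le_mul_of_nonneg_left ?_ (mul_nonneg hA.le (by linarith))
        have h10 : rr z ≤ B' * (1 + D) * (2 + ‖z‖) := by
          have h11 := hH.le z
          have h12 : d z ≤ D + ‖z‖ := by
            have h13 := (abs_le.1 (hH.lip z 0)).2
            rw [sub_zero] at h13
            linarith
          calc rr z ≤ B' * (1 + d z) := h11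
            _ ≤ B' * ((1 + D) * (2 + ‖z‖)) := mul_le_mul_of_nonneg_left (by nlinarith) (by linarith)
            _ = B' * (1 + D) * (2 + ‖z‖) := by ring
        calc rr z ^ γn ≤ rr z ^ (1 : ℝ) := Real.rpow_le_rpow_of_exponent_le (hrr1 z) hγn1.le
          _ = rr z := Real.rpow_one _
          _ ≤ _ := h10
      have h9 : A * (2 + Real.log (2 + n)) * (B' * (1 + D) * (2 + ‖z‖)) ≤ 10 * (A * (B' * (1 + D))) * (Real.log (2 + n) * (1 + ‖z‖)) := by
        have h10 : (2 + Real.log (2 + n)) * (2 + ‖z‖) ≤ 10 * (Real.log (2 + n) * (1 + ‖z‖)) := by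
          have h11 : 2 + Real.log (2 + n) ≤ 5 * Real.log (2 + n) := by linarith
          calc (2 + Real.log (2 + n)) * (2 + ‖z‖) ≤ (5 * Real.log (2 + n)) * (2 * (1 + ‖z‖)) :=
                mul_le_mul h11 (by linarith) (by linarith) (by linarith)
            _ = 10 * (Real.log (2 + n) * (1 + ‖z‖)) := by ring
        calc A * (2 + Real.log (2 + n)) * (B' * (1 + D) * (2 + ‖z‖)) = A * (B' * (1 + D)) * ((2 + Real.log (2 + n)) * (2 + ‖z‖)) := by ring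
          _ ≤ A * (B' * (1 + D)) * (10 * (Real.log (2 + n) * (1 + ‖z‖))) := mul_le_mul_of_nonneg_left h10 hABD
          _ = _ := by ring
      rw [Sg_eq]
      have h10 : 1 + ‖z‖ ≤ 2 * (Real.log (2 + n) * (1 + ‖z‖)) := by
        nlinarith
      have h11 : (2 + 10 * (A * (B' * (1 + D)))) * (Real.log (2 + n) * (1 + ‖z‖)) =
          2 * (Real.log (2 + n) * (1 + ‖z‖)) + 10 * (A * (B' * (1 + D))) * (Real.log (2 + n) * (1 + ‖z‖)) := by ring
      rw [h11]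
      linarith
    have hpw0 : 0 ≤ pw γ' ‖z‖ := by unfold pw; positivity
    have hKa : 0 ≤ K₁ * (1 + A * (B' * (1 + D)) / (1 - γ')) := by
      have h7 : 0 ≤ A * (B' * (1 + D)) / (1 - γ') := div_nonneg hABD (by linarith)
      positivity
    have hKb : 0 ≤ Real.exp 1 * (2 + 10 * (A * (B' * (1 + D)))) := by positivity
    have h7 : K₁ * Sg A γ' rr z ≤ (K₁ * (1 + A * (B' * (1 + D)) / (1 - γ')) + Real.exp 1 * (2 + 10 * (A * (B' * (1 + D))))) * pw γ' ‖z‖ := by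
      calc K₁ * Sg A γ' rr z ≤ K₁ * ((1 + A * (B' * (1 + D)) / (1 - γ')) * pw γ' ‖z‖) := mul_le_mul_of_nonneg_left h1 (by linarith)
        _ = K₁ * (1 + A * (B' * (1 + D)) / (1 - γ')) * pw γ' ‖z‖ := by ring
        _ ≤ _ := mul_le_mul_of_nonneg_right (by linarith) hpw0
    have h8 : Real.exp 1 * ε * Sg A γn rr z ≤
        (K₁ * (1 + A * (B' * (1 + D)) / (1 - γ')) + Real.exp 1 * (2 + 10 * (A * (B' * (1 + D))))) * ε * Real.log (2 + n) * (1 + ‖z‖) := by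
      calc Real.exp 1 * ε * Sg A γn rr z ≤ Real.exp 1 * ε * ((2 + 10 * (A * (B' * (1 + D)))) * (Real.log (2 + n) * (1 + ‖z‖))) :=
            mul_le_mul_of_nonneg_left h6 (by positivity)
        _ = Real.exp 1 * (2 + 10 * (A * (B' * (1 + D)))) * (ε * (Real.log (2 + n) * (1 + ‖z‖))) := by ring
        _ ≤ (K₁ * (1 + A * (B' * (1 + D)) / (1 - γ')) + Real.exp 1 * (2 + 10 * (A * (B' * (1 + D))))) *
              (ε * (Real.log (2 + n) * (1 + ‖z‖))) := mul_le_mul_of_nonneg_right (by linarith) (mul_nonneg hε hLt)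
        _ = _ := by ring
    linarith
  · intro w hw
    have hw' : κ' ≤ d w := hw
    rw [hlap]
    have h1 := hΔB w (hκκ'.trans hw')
    have h2 := hS1' w hw'
    have h3 := hS2' w hw'
    have hd1 : 1 ≤ d w := hκ.trans (hκκ'.trans hw')
    have hd2 : 0 < d w := by linarith
    have h4 : 1 / (4 * d w ^ 2) ≤ (1 + d w) ^ (γ' - 2) := by
      have h5 : (1 + d w) ^ (-2 : ℝ) ≤ (1 + d w) ^ (γ' - 2) := Real.rpow_le_rpow_of_exponent_le (by linarith) (by linarith)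
      refine le_trans ?_ h5
      rw [Real.rpow_neg (by linarith), ← one_div]
      refine one_div_le_one_div_of_le (by positivity) ?_
      rw [Real.rpow_ofNat]
      nlinarith
    have h5 : 0 ≤ (1 + d w) ^ (γn - 2) := by positivity
    have h6 : Real.exp 1 * ε * Δ (Sg A γn rr) w ≤ 0 := by
      have h7 : Δ (Sg A γn rr) w ≤ 0 := by
        have : 0 ≤ γn * c' * (1 + d w) ^ (γn - 2) := by positivity
        linarith
      exact mul_nonpos_of_nonneg_of_nonpos (by positivity) h7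
    have h7 : K₁ * Δ (Sg A γ' rr) w ≤ -(K₁ * (γ' * c') * (1 / (4 * d w ^ 2))) := by
      have h8 : γ' * c' * (1 / (4 * d w ^ 2)) ≤ γ' * c' * (1 + d w) ^ (γ' - 2) := mul_le_mul_of_nonneg_left h4 (by positivity)
      have h9 : Δ (Sg A γ' rr) w ≤ -(γ' * c' * (1 / (4 * d w ^ 2))) := by linarith
      calc K₁ * Δ (Sg A γ' rr) w ≤ K₁ * -(γ' * c' * (1 / (4 * d w ^ 2))) := mul_le_mul_of_nonneg_left h9 (by linarith)
        _ = _ := by ring
    have h8 : B / d w ^ 2 < K₁ * (γ' * c') * (1 / (4 * d w ^ 2)) := by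
      have hgc : 0 < γ' * c' := by positivity
      have h9 : 4 * B < K₁ * (γ' * c') := by
        have h10 : 4 * B / (γ' * c') * (γ' * c') = 4 * B := by field_simp
        have h11 : (4 * B / (γ' * c') + 1) * (γ' * c') ≤ K₁ * (γ' * c') := mul_le_mul_of_nonneg_right (by linarith) hgc.le
        rw [add_mul, h10] at h11
        linarith
      have h10 : B / d w ^ 2 = 4 * B * (1 / (4 * d w ^ 2)) := by field_simp
      rw [h10]
      exact mul_lt_mul_of_pos_right h9 (by positivity)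
    linarith
  · intro w hw
    have hw' : d w ≤ κ' := by
      by_contra hne
      exact hw (not_le.1 hne).le
    refine (hin w hw').trans (Real.exp_le_exp.2 ?_)
    have h1 := hlow2 w
    have h2 := hlow w
    have h3 := hQB w
    have h4 : Q * pw γ ‖w‖ ≤ 3 * Q * pq γ' ‖w‖ := by
      calc Q * pw γ ‖w‖ ≤ Q * (3 * pq γ' ‖w‖) :=
            mul_le_mul_of_nonneg_left ((pw_mono_exp hγγ'.le (norm_nonneg w)).trans (pw_le_pq hγ'0.le hγ'.le (norm_nonneg w))) hQ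
        _ = _ := by ring
    have h5 : Q ≤ Q * pq γ' ‖w‖ := le_mul_of_one_le_right hQ (one_le_pq hγ'0.le _)
    have h6 : (4 * Q) * pq γ' ‖w‖ ≤ K₁ * Sg A γ' rr w := by
      have h7 : 0 ≤ 4 * B / (γ' * c') := by positivity
      exact mul_le_mul (by linarith) h2 (by linarith [one_le_pq hγ'0.le ‖w‖]) (by linarith)
    linarith
  · intro w hw
    refine (hout w).trans (Real.exp_le_exp.2 ?_)
    have h1 := hR ‖w‖ hw (norm_nonneg w)
    have h2 := hlow w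
    have h3 : 0 ≤ pq γ' ‖w‖ := by linarith [one_le_pq hγ'0.le ‖w‖]
    have h4 : Sg A γ' rr w ≤ K₁ * Sg A γ' rr w := le_mul_of_one_le_left (by linarith) hK₁0
    have h5 : 0 ≤ Real.exp 1 * ε * Sg A γn rr w := le_trans (mul_nonneg hε (le_min (norm_nonneg w) hn)) (hlow2 w)
    linarith

end Pool.Agent.SR3.F
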