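import Pool.Agent.SR3.ADefs
import Pool.Agent.SR3.G.ODefs
import Pool.Agent.H30M.Calc
import Pool.Agent.SDR.HarmD

/-!
# SR3 F Defs: comparison functions

Block F.  `r` is the potential of a curve (`log ‖F‖ + const`), `d` the distance to the good points; everything about `r` is used only where `κ ≤ d`.
`gg u u` is the square of the length of the gradient.
-/

set_option autoImplicit false

open Topology Filter Metric Laplacian InnerProductSpace

noncomputable section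

namespace Pool.Agent.SR3.F

open Pool.Agent.H30M (gg)

/-- The potential `r` of a curve; `d` is the distance to the good points. -/
structure Pot (r d : ℂ → ℝ) (κ c B : ℝ) : Prop where
  smooth : ContDiff ℝ 2 r
  one_le : ∀ z, 1 ≤ r z
  d0 : ∀ z, 0 ≤ d z
  lip : ∀ z w, |d z - d w| ≤ ‖z - w‖
  le : ∀ z, r z ≤ B * (1 + d z)
  lower : ∀ z, κ ≤ d z → c * d z ≤ r z
  lap : ∀ z, κ ≤ d z → Δ r z ≤ B / d z ^ 2
  grad : ∀ z, κ ≤ d z → c ≤ gg r r z

/-- A superharmonic potential. -/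
structure Hat (r d : ℂ → ℝ) (κ c B : ℝ) : Prop where
  smooth : ContDiff ℝ 2 r
  one_le : ∀ z, 1 ≤ r z
  d0 : ∀ z, 0 ≤ d z
  lip : ∀ z w, |d z - d w| ≤ ‖z - w‖
  le : ∀ z, r z ≤ B * (1 + d z)
  lap : ∀ z, κ ≤ d z → Δ r z ≤ 0
  grad : ∀ z, κ ≤ d z → c ≤ gg r r z

/-- `r + A log r` -/
def rh (A : ℝ) (r : ℂ → ℝ) (z : ℂ) : ℝ := r z + A * Real.log (r z)

/-- `(1 + |z|²)^(γ/2) + A / (1 - γ) r^γ` -/
def Sg (A γ : ℝ) (r : ℂ → ℝ) (z : ℂ) : ℝ := (1 + ‖z‖ ^ 2) ^ (γ / 2) + A / (1 - γ) * r z ^ γ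

end Pool.Agent.SR3.F
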