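import Pool.Agent.SR3.F.Defs

/-!
# SR3 F Lin: two tangent vectors on which all the forms vanish are proportional
-/

set_option autoImplicit false

open Topology Filter Metric

noncomputable section

namespace Pool.Agent.SR3.F

open Pool.Agent.H36.BP (EN fs)
open Pool.Agent.H14.PP (Tan)

variable {N : ℕ} {G : Geo N}

/-- Euler's relation -/
theorem fderiv_p_self (hG : G.Ok) (x : EN N) : fderiv ℂ G.p x x = G.h * G.p x := by
  have h1 : HasDerivAt (fun t : ℂ => t • x) x 1 := by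
    simpa using (hasDerivAt_id (1 : ℂ)).smul_const x
  have h2 : HasFDerivAt G.p (fderiv ℂ G.p x) ((fun t : ℂ => t • x) 1) := by
    simp only [one_smul]
    exact (hG.aff.an () x).differentiableAt.hasFDerivAt
  have h3 := h2.comp_hasDerivAt (1 : ℂ) h1
  have h4 : (G.p ∘ fun t : ℂ => t • x) = fun t : ℂ => t ^ G.h * G.p x := by
    funext t
    exact hG.aff.smul () t x
  rw [h4] at h3
  have h5 : HasDerivAt (fun t : ℂ => t ^ G.h * G.p x) ((G.h : ℂ) * 1 ^ (G.h - 1) * G.p x) 1 := (hasDerivAt_pow G.h (1 : ℂ)).mul_const _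
  have h6 := h3.unique h5
  rw [h6, one_pow, mul_one]

theorem lin_dep (hG : G.Ok) {x v w : EN N} (hx : x ∈ G.K) (hv : Tan G.X x v) (hw : Tan G.X x w) (hpv : fderiv ℂ G.p x v = 0)
    (hpw : fderiv ℂ G.p x w = 0) (hv0 : v ≠ 0) (h : ∀ a, G.Ω a x v w = 0)
    (hΩ : ∃ a, ∀ v w, Tan G.X x v → Tan G.X x w → LinearIndependent ℂ ![x, v, w] → G.Ω a x v w ≠ 0) : ∃ c : ℂ, w = c • v := by
  obtain ⟨a, ha⟩ := hΩ
  have hli : ¬ LinearIndependent ℂ ![x, v, w] := fun hl => ha v w hv hw hl (h a)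
  rw [Fintype.not_linearIndependent_iff] at hli
  obtain ⟨k, hk, i, hi⟩ := hli
  simp only [Fin.sum_univ_three, Matrix.cons_val_zero, Matrix.cons_val_one, Matrix.cons_val] at hk
  have hp : G.p x ≠ 0 := ((hG.aff.mem x).1 hx).2 ()
  have hh : (G.h : ℂ) ≠ 0 := by
    have := hG.aff.pos ()
    have h2 : 1 ≤ G.h := this
    rw [Nat.cast_ne_zero]
    omega
  have h0 : k 0 = 0 := by
    have h1 := congrArg (fderiv ℂ G.p x) hk
    rw [map_add, map_add, map_smul, map_smul, map_smul, hpv, hpw, fderiv_p_self hG, map_zero, smul_zero, smul_zero, add_zero, add_zero, smul_eq_mul] at h1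
    exact (mul_eq_zero.1 h1).resolve_right (mul_ne_zero hh hp)
  rw [h0, zero_smul, zero_add] at hk
  have h2 : k 2 ≠ 0 := by
    intro h2
    rw [h2, zero_smul, add_zero] at hk
    have h1 : k 1 = 0 := (smul_eq_zero.1 hk).resolve_right hv0
    fin_cases i
    · exact hi h0
    · exact hi h1
    · exact hi h2
  refine ⟨-(k 2)⁻¹ * k 1, ?_⟩
  have h3 : k 2 • w = -(k 1 • v) := by
    rw [eq_neg_iff_add_eq_zero, add_comm]
    exact hk
  have h4 : w = (k 2)⁻¹ • (k 2 • w) := by rw [smul_smul, inv_mul_cancel₀ h2, one_smul]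
  rw [h4, h3, smul_neg, smul_smul, neg_mul, neg_smul]

end Pool.Agent.SR3.F
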