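import Pool.Agent.SR3.F.Defs
import Pool.Agent.MQ.FS

/-!
# SR3 F Sg: a superharmonic comparison function

`Δ (1 + |z|²)^(γ/2) ≤ 2 γ (1 + |z|²)^(γ/2 - 1)`, `Δ r^γ ≤ - γ (1 - γ) c r^(γ - 2)`, and `r ≤ 2 B (1 + D) (1 + |z|²)^(1/2)`.
-/

set_option autoImplicit false

open Topology Filter Metric Laplacian InnerProductSpace

noncomputable section

namespace Pool.Agent.SR3.F

open Pool.Agent.H30M (gg lap_comp)

theorem rp_deriv {e a t : ℝ} (ht : 0 < e + t) : deriv (fun s : ℝ => (e + s) ^ a) t = a * (e + t) ^ (a - 1) := by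
  have h1 : HasDerivAt (fun s : ℝ => e + s) 1 t := (hasDerivAt_id t).const_add e
  have h2 := h1.rpow_const (p := a) (Or.inl ht.ne')
  rw [h2.deriv]
  ring

theorem rp_deriv2 {e a t : ℝ} (ht : 0 < e + t) : deriv (deriv (fun s : ℝ => (e + s) ^ a)) t = a * ((a - 1) * (e + t) ^ (a - 1 - 1)) := by
  have h0 : deriv (fun s : ℝ => (e + s) ^ a) =ᶠ[𝓝 t] fun s => a * (e + s) ^ (a - 1) := by
    have : ∀ᶠ s in 𝓝 t, 0 < e + s := (continuous_const.add continuous_id).continuousAt.eventually (lt_mem_nhds ht)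
    filter_upwards [this] with s hs
    exact rp_deriv hs
  rw [h0.deriv_eq, deriv_const_mul_field, rp_deriv ht]

theorem rp_cd {e a t : ℝ} (ht : 0 < e + t) : ContDiffAt ℝ 2 (fun s : ℝ => (e + s) ^ a) t :=
  (contDiffAt_const.add contDiffAt_id).rpow_const_of_ne ht.ne'

/-- the Laplacian of `(1 + |z|²)^a` -/
theorem lap_one_add {a : ℝ} (ha : 0 ≤ a) (ha1 : a ≤ 1) (z : ℂ) :
    Δ (fun w : ℂ => ((1 + ‖w‖ ^ 2) ^ a : ℝ)) z ≤ 4 * a * (1 + ‖z‖ ^ 2) ^ (a - 1) := by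
  have hp : 0 < 1 + ‖z‖ ^ 2 := by positivity
  have hx : AnalyticAt ℂ (fun w : ℂ => w) z := analyticAt_id
  have cu : ContDiffAt ℝ 2 (fun w : ℂ => ‖w‖ ^ 2) z := MQ.contDiffAt_sqnorm hx
  have hl : Δ (fun w : ℂ => ‖w‖ ^ 2) z = 4 := by
    rw [← MQ.lp_eq_lap cu, MQ.lp_sqnorm hx]
    simp
  have hg : gg (fun w : ℂ => ‖w‖ ^ 2) (fun w : ℂ => ‖w‖ ^ 2) z = 4 * ‖z‖ ^ 2 := by
    rw [MQ.gg_self, MQ.gr_sqnorm hx.differentiableAt.hasDerivAt, norm_mul, RCLike.norm_conj, Complex.norm_ofNat]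
    have : ‖inner ℂ z (deriv (fun w : ℂ => w) z)‖ = ‖z‖ := by
      rw [RCLike.inner_apply, norm_mul, RCLike.norm_conj]
      simp
    rw [this]
    ring
  have e1 : (fun w : ℂ => (1 + ‖w‖ ^ 2) ^ a) = fun w => (fun s : ℝ => (1 + s) ^ a) ((fun w : ℂ => ‖w‖ ^ 2) w) := rfl
  rw [e1, lap_comp (rp_cd hp) cu, rp_deriv hp, rp_deriv2 hp, hl, hg]
  have e2 : (1 + ‖z‖ ^ 2) ^ (a - 1) = (1 + ‖z‖ ^ 2) ^ (a - 1 - 1) * (1 + ‖z‖ ^ 2) := by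
    rw [← Real.rpow_add_one hp.ne']
    congr 1
    ring
  rw [e2]
  have h1 : 0 ≤ (1 + ‖z‖ ^ 2) ^ (a - 1 - 1) := Real.rpow_nonneg hp.le _
  have h2 : 0 ≤ a * (1 - a) * (1 + ‖z‖ ^ 2) ^ (a - 1 - 1) * ‖z‖ ^ 2 :=
    mul_nonneg (mul_nonneg (mul_nonneg ha (by linarith)) h1) (sq_nonneg _)
  nlinarith

/-- the Laplacian of `r^γ` for a superharmonic `r` -/
theorem lap_pow {r : ℂ → ℝ} {z : ℂ} {c γ : ℝ} (hr : ContDiffAt ℝ 2 r z) (h1 : 1 ≤ r z) (hγ : 0 < γ) (hγ1 : γ < 1) (hl : Δ r z ≤ 0) (hg : c ≤ gg r r z) :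
    Δ (fun w => r w ^ γ) z ≤ -(γ * (1 - γ) * c * r z ^ (γ - 2)) := by
  have hp : 0 < 0 + r z := by linarith
  have hz : 0 < r z := by linarith
  have e1 : (fun w => r w ^ γ) = fun w => (fun s : ℝ => (0 + s) ^ γ) (r w) := by
    funext w
    simp
  rw [e1, lap_comp (rp_cd hp) hr, rp_deriv hp, rp_deriv2 hp]
  have e2 : γ - 1 - 1 = γ - 2 := by ring
  rw [zero_add, e2]
  have h2 : 0 ≤ r z ^ (γ - 1) := Real.rpow_nonneg hz.le _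
  have h3 : 0 ≤ r z ^ (γ - 2) := Real.rpow_nonneg hz.le _
  have h4 : γ * r z ^ (γ - 1) * Δ r z ≤ 0 := mul_nonpos_of_nonneg_of_nonpos (by positivity) hl
  have h5 : γ * (1 - γ) * r z ^ (γ - 2) * c ≤ γ * (1 - γ) * r z ^ (γ - 2) * gg r r z :=
    mul_le_mul_of_nonneg_left hg (mul_nonneg (mul_nonneg hγ.le (by linarith)) h3)
  nlinarith

theorem cd_one_add (a : ℝ) : ContDiff ℝ 2 (fun w : ℂ => (1 + ‖w‖ ^ 2) ^ a) :=
  (contDiff_const.add (contDiff_norm_sq ℝ)).rpow_const_of_ne fun w => by positivity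

theorem cd_pow {r : ℂ → ℝ} (hr : ContDiff ℝ 2 r) (h1 : ∀ z, 1 ≤ r z) (γ : ℝ) : ContDiff ℝ 2 (fun w => r w ^ γ) :=
  hr.rpow_const_of_ne fun w => by
    have := h1 w
    exact (by linarith : 0 < r w).ne'

theorem exists_Sg {κ c B D : ℝ} (hκ : 1 ≤ κ) (hc : 0 < c) (hB : 1 ≤ B) (hD : 0 ≤ D) :
    ∃ A c' : ℝ, 0 < A ∧ 0 < c' ∧ ∀ r d : ℂ → ℝ, Hat r d κ c B → d 0 ≤ D → ∀ γ, 0 < γ → γ < 1 →
      ContDiff ℝ 2 (Sg A γ r) ∧ ∀ z, κ ≤ d z → Δ (Sg A γ r) z ≤ -(γ * c' * (1 + d z) ^ (γ - 2)) := by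
  obtain ⟨M, hM⟩ : ∃ M, M = 2 * B * (1 + D) := ⟨_, rfl⟩
  have hM1 : 1 ≤ M := by
    rw [hM]
    nlinarith
  refine ⟨4 * M ^ 2 / c, 2 * M ^ 2 / B ^ 2, by positivity, by positivity, fun r d H h0 γ hγ hγ1 => ?_⟩
  have c1 : ContDiff ℝ 2 (fun w : ℂ => (1 + ‖w‖ ^ 2) ^ (γ / 2)) := cd_one_add _
  have c2 : ContDiff ℝ 2 (fun w => r w ^ γ) := cd_pow H.smooth H.one_le γ
  have hg1 : 0 < 1 - γ := by linarith
  refine ⟨c1.add (contDiff_const.mul c2), fun z hz => ?_⟩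
  have hr1 := H.one_le z
  have hr0 : 0 < r z := by linarith
  have hd0 := H.d0 z
  have e1 : Δ (Sg (4 * M ^ 2 / c) γ r) z =
      Δ (fun w : ℂ => ((1 + ‖w‖ ^ 2) ^ (γ / 2) : ℝ)) z + 4 * M ^ 2 / c / (1 - γ) * Δ (fun w => r w ^ γ) z := by
    rw [← H30M.lap_const_mul c2.contDiffAt]
    exact H30M.lap_add c1.contDiffAt (contDiff_const.mul c2).contDiffAt
  have h1 := lap_one_add (a := γ / 2) (by linarith) (by linarith) z
  have h2 := lap_pow (γ := γ) H.smooth.contDiffAt hr1 hγ hγ1 (H.lap z hz) (H.grad z hz)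
  have h3 : 4 * M ^ 2 / c / (1 - γ) * Δ (fun w => r w ^ γ) z ≤ -(4 * M ^ 2 * γ * r z ^ (γ - 2)) := by
    have h4 := mul_le_mul_of_nonneg_left h2 (by positivity : 0 ≤ 4 * M ^ 2 / c / (1 - γ))
    have h5 : 4 * M ^ 2 / c / (1 - γ) * -(γ * (1 - γ) * c * r z ^ (γ - 2)) = -(4 * M ^ 2 * γ * r z ^ (γ - 2)) := by
      field_simp
    linarith
  -- `r ≤ M s`
  obtain ⟨s, hs⟩ : ∃ s, s = √(1 + ‖z‖ ^ 2) := ⟨_, rfl⟩
  have hq : 0 < 1 + ‖z‖ ^ 2 := by positivity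
  have hs0 : 0 < s := by
    rw [hs]
    exact Real.sqrt_pos.2 hq
  have hss : s ^ 2 = 1 + ‖z‖ ^ 2 := by
    rw [hs]
    exact Real.sq_sqrt hq.le
  have hzs : 1 + ‖z‖ ≤ 2 * s := by
    have : (1 + ‖z‖) ^ 2 ≤ (2 * s) ^ 2 := by nlinarith [sq_nonneg (‖z‖ - 1), norm_nonneg z]
    exact (abs_le_of_sq_le_sq' this (by positivity)).2
  have hrM : r z ≤ M * s := by
    have h4 := H.le z
    have h5 : d z ≤ D + ‖z‖ := by
      have h6 := (abs_le.1 (H.lip z 0)).2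
      rw [sub_zero] at h6
      linarith
    have h6 : 1 + d z ≤ (1 + D) * (1 + ‖z‖) := by nlinarith [norm_nonneg z, mul_nonneg hD (norm_nonneg z)]
    calc r z ≤ B * (1 + d z) := h4
      _ ≤ B * ((1 + D) * (1 + ‖z‖)) := mul_le_mul_of_nonneg_left h6 (by linarith)
      _ ≤ B * ((1 + D) * (2 * s)) := by gcongr
      _ = M * s := by rw [hM]; ring
  have h4 : (1 + ‖z‖ ^ 2) ^ (γ / 2 - 1) ≤ M ^ 2 * r z ^ (γ - 2) := by
    have h5 : (M * s) ^ (γ - 2) ≤ r z ^ (γ - 2) := Real.rpow_le_rpow_of_nonpos hr0 hrM (by linarith)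
    have h6 : (1 + ‖z‖ ^ 2) ^ (γ / 2 - 1) = s ^ (γ - 2) := by
      rw [← hss, ← Real.rpow_natCast, ← Real.rpow_mul hs0.le]
      congr 1
      push_cast
      ring
    have h7 : (1 : ℝ) ≤ M ^ 2 * M ^ (γ - 2) := by
      rw [← Real.rpow_natCast, ← Real.rpow_add (by linarith)]
      push_cast
      exact Real.one_le_rpow hM1 (by linarith)
    rw [Real.mul_rpow (by linarith) hs0.le] at h5
    rw [h6]
    have h8 : 0 ≤ s ^ (γ - 2) := Real.rpow_nonneg hs0.le _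
    calc s ^ (γ - 2) ≤ M ^ 2 * M ^ (γ - 2) * s ^ (γ - 2) := le_mul_of_one_le_left h8 h7
      _ = M ^ 2 * (M ^ (γ - 2) * s ^ (γ - 2)) := by ring
      _ ≤ M ^ 2 * r z ^ (γ - 2) := mul_le_mul_of_nonneg_left h5 (by positivity)
  have h5 : (1 + d z) ^ (γ - 2) / B ^ 2 ≤ r z ^ (γ - 2) := by
    have h6 : (B * (1 + d z)) ^ (γ - 2) ≤ r z ^ (γ - 2) := Real.rpow_le_rpow_of_nonpos hr0 (H.le z) (by linarith)
    have h7 : (1 : ℝ) ≤ B ^ 2 * B ^ (γ - 2) := by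
      rw [← Real.rpow_natCast, ← Real.rpow_add (by linarith)]
      push_cast
      exact Real.one_le_rpow hB (by linarith)
    rw [Real.mul_rpow (by linarith) (by linarith)] at h6
    have h8 : 0 ≤ (1 + d z) ^ (γ - 2) := Real.rpow_nonneg (by linarith) _
    rw [div_le_iff₀ (by positivity)]
    calc (1 + d z) ^ (γ - 2) ≤ B ^ 2 * B ^ (γ - 2) * (1 + d z) ^ (γ - 2) := le_mul_of_one_le_left h8 h7
      _ = B ^ (γ - 2) * (1 + d z) ^ (γ - 2) * B ^ 2 := by ring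
      _ ≤ r z ^ (γ - 2) * B ^ 2 := mul_le_mul_of_nonneg_right h6 (by positivity)
  rw [e1]
  have h6 : 4 * (γ / 2) * (1 + ‖z‖ ^ 2) ^ (γ / 2 - 1) ≤ 2 * γ * (M ^ 2 * r z ^ (γ - 2)) := by
    have := mul_le_mul_of_nonneg_left h4 (by positivity : 0 ≤ 2 * γ)
    linarith
  have h7 : γ * (2 * M ^ 2 / B ^ 2) * (1 + d z) ^ (γ - 2) ≤ 2 * γ * (M ^ 2 * r z ^ (γ - 2)) := by
    have h8 := mul_le_mul_of_nonneg_left h5 (by positivity : 0 ≤ 2 * γ * M ^ 2)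
    have e : γ * (2 * M ^ 2 / B ^ 2) * (1 + d z) ^ (γ - 2) = 2 * γ * M ^ 2 * ((1 + d z) ^ (γ - 2) / B ^ 2) := by ring
    rw [e]
    linarith
  linarith

end Pool.Agent.SR3.F
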